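import Mathlib
import Pool.Agent.H.MP_c22137_lc.G

set_option autoImplicit false

namespace Pool.Agent.H.MP_6fff33_lc

open Set Complex Pool.Agent.H.MP_c22137_lc

variable {T : ℝ}

theorem prim {a : ℝ → ℝ} (hT : 0 ≤ T) (ha : ContinuousOn a (Icc 0 T)) (c : ℝ) : ∃ A : ℝ → ℝ, A 0 = c ∧ D T A a := by
  have hc : Continuous fun t => a (projIcc 0 T hT t) :=
    (continuousOn_iff_continuous_restrict.1 ha).comp continuous_projIcc
  refine ⟨fun t => c + ∫ s in (0 : ℝ)..t, a (projIcc 0 T hT s), by simp, fun t ht => ?_⟩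
  exact ((hc.integral_hasStrictDerivAt 0 t).hasDerivAt.const_add c).hasDerivWithinAt.congr_deriv (by rw [projIcc_of_mem hT ht])

theorem bar {u u' b : ℝ → ℝ} {M : ℝ} (h : D T u u') (hb : ContinuousOn b (Icc 0 T))
    (hu : ∀ t ∈ Icc (0 : ℝ) T, u' t ≤ b t * (M - u t)) (h0 : u 0 ≤ M) : ∀ t ∈ Icc (0 : ℝ) T, u t ≤ M := by
  intro t ht
  obtain ⟨B, B0, hB⟩ := prim (ht.1.trans ht.2) hb 0
  have k : D T (fun t => (u t - M) * Real.exp (B t)) fun t => (u' t - b t * (M - u t)) * Real.exp (B t) := fun s hs =>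
    (((h s hs).sub_const M).fun_mul (hB s hs).exp).congr_deriv (by ring)
  have := k.anti (fun s hs => mul_nonpos_of_nonpos_of_nonneg (sub_nonpos.2 (hu s hs)) (Real.exp_pos _).le) t ht
  simp only [B0, Real.exp_zero, mul_one] at this
  have p := Real.exp_pos (B t)
  by_contra c
  push Not at c
  nlinarith [mul_pos (sub_pos.2 c) p]

theorem absbar {u k β : ℝ → ℝ} {M c : ℝ} (h : D T u fun t => k t * (β t - c * u t)) (hk : ContinuousOn k (Icc 0 T))
    (k0 : ∀ t ∈ Icc (0 : ℝ) T, 0 ≤ k t) (hβ : ∀ t ∈ Icc (0 : ℝ) T, |β t| ≤ c * M) (h0 : |u 0| ≤ M) :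
    ∀ t ∈ Icc (0 : ℝ) T, |u t| ≤ M := by
  intro t ht
  refine abs_le.2 ⟨?_, bar h (b := fun t => k t * c) (hk.mul continuousOn_const) (fun s hs => ?_) ((le_abs_self _).trans h0) t ht⟩
  · have := bar (u := fun t => - u t) (M := M) (fun s hs => (h s hs).fun_neg) (b := fun t => k t * c) (hk.mul continuousOn_const)
      (fun s hs => by nlinarith [mul_le_mul_of_nonneg_left (abs_le.1 (hβ s hs)).1 (k0 s hs)]) ((neg_le_abs _).trans h0) t ht
    linarith
  · nlinarith [mul_le_mul_of_nonneg_left (abs_le.1 (hβ s hs)).2 (k0 s hs)]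

theorem fence {u u' : ℝ → ℝ} {M : ℝ} (h : D T u u') (h0 : u 0 ≤ M) (hu : ∀ t ∈ Icc (0 : ℝ) T, u t = M → u' t < 0) :
    ∀ t ∈ Icc (0 : ℝ) T, u t ≤ M := fun _ ht =>
  image_le_of_deriv_right_lt_deriv_boundary (B := fun _ => M) (B' := fun _ => 0) h.cont h.right h0
    (fun _ => hasDerivAt_const _ _) (fun x hx => hu x (Ico_subset_Icc_self hx)) ht

variable {τ h : ℝ → ℝ}

theorem rot_D (hτ : D T τ h) (a : ℂ) (w : ℝ) : D T (fun t => rot a w (τ t)) fun t => h t * (I * w * rot a w (τ t)) :=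
  fun t ht => ((rot_deriv a w (τ t)).scomp_hasDerivWithinAt t (hτ t ht)).congr_deriv (by simp)

theorem rot_uniq' (hτ : D T τ h) (h0 : τ 0 = 0) (hh : ContinuousOn h (Icc 0 T)) {η : ℝ → ℂ} {w : ℝ}
    (k : D T η fun t => h t * (I * w * η t)) : ∀ t ∈ Icc (0 : ℝ) T, η t = rot (η 0) w (τ t) := by
  intro t ht
  have k : D T (fun t => η t - rot (η 0) w (τ t)) fun t => h t * (I * w * (η t - rot (η 0) w (τ t))) := fun s hs =>
    ((k s hs).fun_sub (rot_D hτ (η 0) w s hs)).congr_deriv (by ring)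
  exact sub_eq_zero.1 (k.zero (a := fun t => |h t| * |w|) (hh.abs.mul continuousOn_const) (fun s _ => by simp [mul_assoc])
    (by simp [rot_zero, h0]) t ht)

theorem geo_uniq' (hτ : D T τ h) (t0 : τ 0 = 0) (hh : ContinuousOn h (Icc 0 T)) {G : ℝ → ℂ} {w : ℝ} {a : ℂ}
    (k : D T G fun t => h t * (I * w * (G t - 1) * G t)) (h0 : G 0 * (1 - a) = 1) :
    ∀ t ∈ Icc (0 : ℝ) T, G t * (1 - rot a w (τ t)) = 1 := by
  intro t ht
  have k' : D T (fun t => G t * (1 - rot a w (τ t)) - 1) fun t => h t * (I * w * G t * (G t * (1 - rot a w (τ t)) - 1)) :=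
    fun s hs => (((k s hs).fun_mul ((rot_D hτ a w s hs).const_sub 1)).sub_const 1).congr_deriv (by ring)
  refine sub_eq_zero.1 (k'.zero (a := fun t => |h t| * |w| * ‖G t‖) ((hh.abs.mul continuousOn_const).mul k.cont.norm)
    (fun s _ => by simp [mul_assoc]) (by simp [rot_zero, h0, t0]) t ht)

theorem glob {n : ℕ} {f : (Fin n → ℝ) → Fin n → ℝ} (hf : ContDiff ℝ 1 f) (x : Fin n → ℝ) {M : ℝ}
    (H : ∀ (T : ℝ) (γ : ℝ → Fin n → ℝ), γ 0 = x → (D T γ fun t => f (γ t)) → ∀ t ∈ Icc (0 : ℝ) T, ‖γ t‖ ≤ M) :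
    ∃ γ : ℝ → Fin n → ℝ, γ 0 = x ∧ ∀ t, 0 ≤ t → HasDerivAt γ (f (γ t)) t := by
  let c : (Fin n → ℝ) → Fin n → ℝ := fun y i => max (-(|M| + 1)) (min (|M| + 1) (y i))
  have M0 : 0 < |M| + 1 := by positivity
  have c1 : LipschitzWith 1 c := LipschitzWith.of_dist_le_mul fun y z => by
    simp only [NNReal.coe_one, one_mul]
    refine (dist_pi_le_iff dist_nonneg).2 fun i => le_trans ?_ (dist_le_pi_dist y z i)
    simpa [c] using ((LipschitzWith.id.const_min (|M| + 1)).const_max (-(|M| + 1))).dist_le_mul (y i) (z i)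
  have c2 : ∀ y, c y ∈ Metric.closedBall (0 : Fin n → ℝ) (|M| + 1) := fun y => by
    rw [mem_closedBall_zero_iff]
    exact (pi_norm_le_iff_of_nonneg M0.le).2 fun i => abs_le.2 ⟨le_max_left _ _, max_le (by linarith) (min_le_left _ _)⟩
  have c3 : ∀ y, ‖y‖ ≤ |M| + 1 → c y = y := fun y hy => funext fun i => by
    have := abs_le.1 ((norm_le_pi_norm y i).trans hy)
    simp only [c]
    rw [min_eq_right this.2, max_eq_right this.1]
  obtain ⟨K, hK⟩ := hf.locallyLipschitz.locallyLipschitzOn.exists_lipschitzOnWith_of_compact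
    (isCompact_closedBall (0 : Fin n → ℝ) (|M| + 1))
  obtain ⟨L, hL⟩ := (isCompact_closedBall (0 : Fin n → ℝ) (|M| + 1)).exists_bound_of_continuousOn hf.continuous.continuousOn
  have g1 : LipschitzWith (K * 1) (f ∘ c) := lipschitzOnWith_univ.1 (hK.comp c1.lipschitzOnWith fun y _ => c2 y)
  have L0 : 0 ≤ L := (norm_nonneg _).trans (hL _ (c2 0))
  have h1 : ∀ r : ℝ, ∃ α : ℝ → Fin n → ℝ, α 0 = x ∧ ∀ t ∈ Ioo (-(|r| + 1)) (|r| + 1), HasDerivAt α ((f ∘ c) (α t)) t := fun r => by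
    have h0 : 0 < |r| + 1 := by positivity
    obtain ⟨β, b1, b2⟩ := (IsPicardLindelof.of_time_independent (f := f ∘ c) (tmin := -(|r| + 1))
      (tmax := |r| + 1) (t₀ := ⟨0, by linarith, h0.le⟩) (x₀ := x) (a := ⟨L * (|r| + 1), by positivity⟩) (r := 0) (L := ⟨L, L0⟩)
      (fun y _ => hL _ (c2 y)) g1.lipschitzOnWith (by simp; rfl)).exists_eq_forall_mem_Icc_hasDerivWithinAt₀
    exact ⟨β, b1, fun t ht => (b2 t (Ioo_subset_Icc_self ht)).hasDerivAt (Icc_mem_nhds ht.1 ht.2)⟩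
  choose α a1 a2 using h1
  have h3 : ∀ r s, |r| ≤ |s| → EqOn (α r) (α s) (Ioo (-(|r| + 1)) (|r| + 1)) := fun r s h =>
    ODE_solution_unique_of_mem_Ioo (v := fun _ => f ∘ c) (s := fun _ => univ) (t₀ := 0)
      (fun _ _ => g1.lipschitzOnWith) ⟨by linarith [abs_nonneg r], by positivity⟩
      (fun t ht => ⟨a2 r t ht, trivial⟩)
      (fun t ht => ⟨a2 s t (Ioo_subset_Ioo (by linarith) (by linarith) ht), trivial⟩)
      (by rw [a1, a1])
  have h4 : ∀ t : ℝ, t ∈ Ioo (-(|t| + 1)) (|t| + 1) := fun t =>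
    ⟨by linarith [neg_abs_le t], by linarith [le_abs_self t]⟩
  obtain ⟨γ, g0, g2⟩ : ∃ γ : ℝ → Fin n → ℝ, γ 0 = x ∧ ∀ t, HasDerivAt γ (f (c (γ t))) t := by
    refine ⟨fun t => α t t, a1 0, fun t => (a2 t t (h4 t)).congr_of_eventuallyEq ?_⟩
    filter_upwards [Ioo_mem_nhds (h4 t).1 (h4 t).2] with s hs
    rcases le_total |s| |t| with h | h
    exacts [h3 s t h (h4 s), (h3 t s h hs).symm]
  have gc : Continuous γ := continuous_iff_continuousAt.2 fun t => (g2 t).continuousAt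
  refine ⟨γ, g0, fun t ht => c3 (γ t) ?_ ▸ g2 t⟩
  by_contra b
  let S := {s : ℝ | 0 ≤ s ∧ |M| + 1 ≤ ‖γ s‖}
  have s1 : IsClosed S := (isClosed_le continuous_const continuous_id).inter (isClosed_le continuous_const gc.norm)
  have s2 : BddBelow S := ⟨0, fun s hs => hs.1⟩
  have s3 := s1.csInf_mem ⟨t, ht, (not_le.1 b).le⟩ s2
  have s4 : ∀ s ∈ Icc 0 (sInf S), ‖γ s‖ ≤ |M| + 1 := by
    rcases s3.1.eq_or_lt with e | e
    · intro s hs
      have : s = 0 := le_antisymm (e ▸ hs.2) hs.1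
      have k := H 0 (fun _ => x) rfl (fun t ht => by
        rw [Icc_self]; exact HasFDerivWithinAt.of_finite (finite_singleton _)) 0 ⟨le_rfl, le_rfl⟩
      rw [this, g0]
      linarith [le_abs_self M]
    · rw [← closure_Ico e.ne]
      refine fun s hs => closure_minimal (fun s hs => ?_) (isClosed_le gc.norm continuous_const) hs
      by_contra c
      exact (csInf_le s2 ⟨hs.1, (not_le.1 c).le⟩).not_gt hs.2
  have := H (sInf S) γ g0 (fun s hs => (g2 s).hasDerivWithinAt.congr_deriv (by rw [c3 (γ s) (s4 s hs)])) _ ⟨s3.1, le_rfl⟩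
  linarith [s3.2, le_abs_self M]

end Pool.Agent.H.MP_6fff33_lc
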