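import Mathlib
import Pool.Agent.H.MP_6fff33_lc.A

set_option autoImplicit false

namespace Pool.Agent.H.MP_6fff33_lc

open Set Complex Sum Pool.Agent.H.MP_c22137_lc

variable {ι : Type} [Fintype ι] (Pn : ℝ → (ι → ℝ) → ℝ)

/-- conserved quantities; coordinates s, w, Y, U1, U2 and frequency, rotation, filter -/
def SS (x : V ι → ℝ) : ℝ := x (inl 0) ^ 2 - (x (inl 3) ^ 2 + x (inl 4) ^ 2)
/-- conserved quantity -/
def TT (x : V ι → ℝ) : ℝ := x (inl 0) ^ 2 + (x (inl 3) ^ 2 + x (inl 4) ^ 2)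
/-- conserved quantity -/
def NN (x : V ι → ℝ) : ℝ := x (inl 0) ^ 2 + x (inl 2) ^ 2 + ∑ j, (x (inr (j, 1)) ^ 2 + x (inr (j, 2)) ^ 2)
/-- angular speed factor -/
def QQ (x : V ι → ℝ) : ℝ := (x (inl 0) + x (inl 3)) ^ 2 + x (inl 4) ^ 2
/-- forcing -/
def FF (x : V ι → ℝ) (j : ι) : ℝ := x (inl 0) * ((x (inl 0) + x (inl 3)) * x (inr (j, 1)) + x (inl 4) * x (inr (j, 2)))

/-- homogeneous part of degree nine -/
def F (x : V ι → ℝ) : V ι → ℝ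
  | inl a => ![0, 0, 0, -(x (inl 1) ^ 4 * NN x * QQ x * x (inl 4)), x (inl 1) ^ 4 * NN x * QQ x * x (inl 3)] a
  | inr (j, a) => ![0, -(x (inl 1) ^ 3 * x (inr (j, 0)) * NN x * SS x * x (inr (j, 2))),
      x (inl 1) ^ 3 * x (inr (j, 0)) * NN x * SS x * x (inr (j, 1)),
      x (inl 1) ^ 4 * (x (inl 2) ^ 2 + x (inr (j, 3)) ^ 2) * (FF x j - TT x * x (inr (j, 3)))] a

/-- radial rate, homogeneous of degree eight -/
def R (x : V ι → ℝ) : ℝ := x (inl 1) ^ 4 * (x (inl 2) ^ 2 * (x (inl 0) ^ 2 - 4 * (x (inl 3) ^ 2 + x (inl 4) ^ 2)) -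
  2 * TT x * ∑ j, (x (inr (j, 3)) - x (inl 2)) ^ 2) - x (inl 2) ^ 2 * TT x * Pn (x (inl 1)) fun j => x (inr (j, 0))

/-- squared Euclidean norm -/
def nq (x : V ι → ℝ) : ℝ := ∑ v, x v ^ 2

/-- the vector field -/
def full (x : V ι → ℝ) (v : V ι) : ℝ := F x v + (R Pn x - nq x ^ 5) * x v

variable {Pn} {T : ℝ}

theorem NN_smul (c : ℝ) (x : V ι → ℝ) : NN (c • x) = c ^ 2 * NN x := by
  simp only [NN, Pi.smul_apply, smul_eq_mul, mul_add, Finset.mul_sum, mul_pow]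

theorem F_smul (c : ℝ) (x : V ι → ℝ) (v : V ι) : F (c • x) v = c ^ 9 * F x v := by
  rcases v with i | ⟨j, i⟩ <;> fin_cases i <;> simp [F, NN_smul, SS, TT, QQ, FF] <;> ring

theorem R_smul (hh : ∀ c w ω, Pn (c * w) (fun j => c * ω j) = c ^ 4 * Pn w ω) (c : ℝ) (x : V ι → ℝ) :
    R Pn (c • x) = c ^ 8 * R Pn x := by
  have : ∑ j, (c * x (inr (j, 3)) - c * x (inl 2)) ^ 2 = c ^ 2 * ∑ j, (x (inr (j, 3)) - x (inl 2)) ^ 2 := by
    rw [Finset.mul_sum]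
    exact Finset.sum_congr rfl fun _ _ => by ring
  simp only [R, TT, Pi.smul_apply, smul_eq_mul, hh, this]
  ring

theorem nq_smul (c : ℝ) (x : V ι → ℝ) : nq (c • x) = c ^ 2 * nq x := by
  simp only [nq, Pi.smul_apply, smul_eq_mul, Finset.mul_sum, mul_pow]

theorem decomp (hc : Continuous fun p : ℝ × (ι → ℝ) => Pn p.1 p.2)
    (hh : ∀ c w ω, Pn (c * w) (fun j => c * ω j) = c ^ 4 * Pn w ω) {X : ℝ → V ι → ℝ} (hT : 0 ≤ T)
    (h : D T X fun t => full Pn (X t)) (σ0 : ℝ) (z : V ι → ℝ) (h0 : X 0 = Real.exp σ0 • z) :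
    ∃ (σ τ : ℝ → ℝ) (Z : ℝ → V ι → ℝ), σ 0 = σ0 ∧ Z 0 = z ∧ τ 0 = 0 ∧ (∀ t, X t = Real.exp (σ t) • Z t) ∧
      (D T τ fun t => Real.exp (σ t) ^ 8) ∧ ContinuousOn (fun t => Real.exp (σ t) ^ 8) (Icc 0 T) ∧
      (D T Z fun t => Real.exp (σ t) ^ 8 • F (Z t)) ∧
      D T σ fun t => Real.exp (σ t) ^ 8 * R Pn (Z t) - Real.exp (σ t) ^ 10 * nq (Z t) ^ 5 := by
  have c1 : Continuous fun x : V ι → ℝ => R Pn x - nq x ^ 5 := by
    have : Continuous fun x : V ι → ℝ => Pn (x (inl 1)) fun j => x (inr (j, 0)) :=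
      hc.comp (f := fun x : V ι → ℝ => (x (inl 1), fun j => x (inr (j, 0)))) (by fun_prop)
    unfold R nq TT
    fun_prop
  obtain ⟨σ, s0, s1⟩ := prim hT (c1.comp_continuousOn h.cont) σ0
  have c2 : ContinuousOn (fun t => Real.exp (σ t) ^ 8) (Icc 0 T) := (Real.continuous_exp.comp_continuousOn s1.cont).pow 8
  obtain ⟨τ, t0, t1⟩ := prim hT c2 0
  have e : ∀ t, X t = Real.exp (σ t) • Real.exp (-σ t) • X t := fun t => by
    rw [smul_smul, ← Real.exp_add]; simp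
  refine ⟨σ, τ, fun t => Real.exp (-σ t) • X t, s0, by beta_reduce; rw [h0, s0, smul_smul, ← Real.exp_add]; simp, t0, e, t1, c2,
    fun t ht => ?_, s1.congr fun t ht => ?_⟩
  · refine ((s1 t ht).fun_neg.exp.fun_smul (h t ht)).congr_deriv ?_
    ext v
    have k : (Real.exp (σ t) * Real.exp (-σ t)) ^ 8 = 1 := by rw [← Real.exp_add]; simp
    simp only [Pi.add_apply, Pi.smul_apply, smul_eq_mul, F_smul, full, Function.comp_apply]
    linear_combination (-(F (X t) v) * Real.exp (-σ t)) * k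
  · simp only [Function.comp_apply]
    conv_lhs => rw [e t, R_smul hh, nq_smul]
    ring

variable {Z : ℝ → V ι → ℝ} {τ h : ℝ → ℝ}

theorem cons (k : D T Z fun t => h t • F (Z t)) : ∀ t ∈ Icc (0 : ℝ) T,
    Z t (inl 0) = Z 0 (inl 0) ∧ Z t (inl 1) = Z 0 (inl 1) ∧ Z t (inl 2) = Z 0 (inl 2) ∧
    Z t (inl 3) ^ 2 + Z t (inl 4) ^ 2 = Z 0 (inl 3) ^ 2 + Z 0 (inl 4) ^ 2 ∧ (∀ j, Z t (inr (j, 0)) = Z 0 (inr (j, 0))) ∧
    ∀ j, Z t (inr (j, 1)) ^ 2 + Z t (inr (j, 2)) ^ 2 = Z 0 (inr (j, 1)) ^ 2 + Z 0 (inr (j, 2)) ^ 2 := fun t ht => by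
  have c : ∀ v, D T (fun t => Z t v) fun t => h t * F (Z t) v := fun v t ht => hasDerivWithinAt_pi.1 (k t ht) v
  refine ⟨D.const (T := T) ((c (inl 0)).congr fun _ _ => by simp [F]) t ht, D.const (T := T) ((c (inl 1)).congr fun _ _ => by simp [F]) t ht,
    D.const (T := T) ((c (inl 2)).congr fun _ _ => by simp [F]) t ht,
    D.const (T := T) (f := fun t => Z t (inl 3) ^ 2 + Z t (inl 4) ^ 2) (fun s hs =>
      (((c _ s hs).fun_pow 2).fun_add ((c _ s hs).fun_pow 2)).congr_deriv (by simp [F]; ring)) t ht,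
    fun j => D.const (T := T) ((c (inr (j, 0))).congr fun _ _ => by simp [F]) t ht, fun j =>
    D.const (T := T) (f := fun t => Z t (inr (j, 1)) ^ 2 + Z t (inr (j, 2)) ^ 2) (fun s hs =>
      (((c _ s hs).fun_pow 2).fun_add ((c _ s hs).fun_pow 2)).congr_deriv (by simp [F]; ring)) t ht⟩

theorem cons' (k : D T Z fun t => h t • F (Z t)) : ∀ t ∈ Icc (0 : ℝ) T,
    SS (Z t) = SS (Z 0) ∧ TT (Z t) = TT (Z 0) ∧ NN (Z t) = NN (Z 0) := fun t ht => by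
  obtain ⟨a, -, c, d, -, f⟩ := cons k t ht
  simp only [SS, TT, NN, a, c, d, f, and_self]

theorem qeq (k : D T Z fun t => h t • F (Z t)) (j : ι) : D T (fun t => Z t (inr (j, 3))) fun t =>
    h t * Z 0 (inl 1) ^ 4 * (Z 0 (inl 2) ^ 2 + Z t (inr (j, 3)) ^ 2) * (FF (Z t) j - TT (Z 0) * Z t (inr (j, 3))) := fun t ht =>
  (hasDerivWithinAt_pi.1 (k t ht) (inr (j, 3))).congr_deriv (by
    rw [← (cons' k t ht).2.1, ← (cons k t ht).2.1, ← (cons k t ht).2.2.1]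
    simp [F]
    ring)

/-- normalised complex coordinate -/
noncomputable def GG' (x : V ι → ℝ) : ℂ := x (inl 0) * (x (inl 0) + x (inl 3) + x (inl 4) * I) / SS x

theorem expl' (k : D T Z fun t => h t • F (Z t)) (hτ : D T τ h) (t0 : τ 0 = 0) (hh : ContinuousOn h (Icc 0 T))
    (hS : SS (Z 0) ≠ 0) (hT : TT (Z 0) ≠ 0) {a : ℂ} (ha : GG' (Z 0) * (1 - a) = 1) : ∀ t ∈ Icc (0 : ℝ) T,
    GG' (Z t) * (1 - rot a (Z 0 (inl 1) ^ 4 * NN (Z 0) * SS (Z 0)) (τ t)) = 1 ∧ ∀ j, FF (Z t) j = TT (Z 0) *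
      (GG' (Z t) * (starRingEnd ℂ) (rot ((SS (Z 0) / TT (Z 0) : ℝ) * bb (Z 0) j)
        (Z 0 (inl 1) ^ 3 * Z 0 (inr (j, 0)) * NN (Z 0) * SS (Z 0)) (τ t))).re := by
  have c : ∀ v, D T (fun t => Z t v) fun t => h t * F (Z t) v := fun v t ht => hasDerivWithinAt_pi.1 (k t ht) v
  have hS' : (SS (Z 0) : ℂ) ≠ 0 := by exact_mod_cast hS
  have e : ∀ t ∈ Icc (0 : ℝ) T, GG' (Z t) = Z 0 (inl 0) * (Z 0 (inl 0) + Z t (inl 3) + Z t (inl 4) * I) / SS (Z 0) := fun t ht => by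
    rw [GG', (cons' k t ht).1, (cons k t ht).1]
  have c4 : D T (fun t => (Z 0 (inl 0) * (Z 0 (inl 0) + Z t (inl 3) + Z t (inl 4) * I) / SS (Z 0) : ℂ)) fun t => h t *
      (I * ((Z 0 (inl 1) ^ 4 * NN (Z 0) * SS (Z 0) : ℝ) : ℂ) *
        (Z 0 (inl 0) * (Z 0 (inl 0) + Z t (inl 3) + Z t (inl 4) * I) / SS (Z 0) - 1) *
        (Z 0 (inl 0) * (Z 0 (inl 0) + Z t (inl 3) + Z t (inl 4) * I) / SS (Z 0))) := fun t ht =>
    (((((c (inl 3) t ht).ofReal_comp.const_add _).fun_add ((c (inl 4) t ht).ofReal_comp.mul_const I)).const_mul _).div_const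
      _).congr_deriv (by
      obtain ⟨a1, a2, -⟩ := cons k t ht
      obtain ⟨b1, -, b3⟩ := cons' k t ht
      have b4 : (SS (Z t) : ℂ) = Z t (inl 0) ^ 2 - (Z t (inl 3) ^ 2 + Z t (inl 4) ^ 2) := by simp [SS]
      rw [← b1] at hS'
      rw [← a1, ← a2, ← b1, ← b3]
      simp only [F, QQ, Matrix.cons_val]
      push_cast
      field_simp
      rw [b4]
      linear_combination (h t * Z t (inl 0) * Z t (inl 1) ^ 4 * NN (Z t) * Z t (inl 4) * (Z t (inl 0) * (Z t (inl 0) + Z t (inl 3)) * (-1) -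
        (Z t (inl 0) * Z t (inl 3) + Z t (inl 3) ^ 2 + Z t (inl 4) ^ 2) - I * Z t (inl 0) * Z t (inl 4))) * I_sq)
  have c5 : ∀ j, D T (fun t => bb (Z t) j) fun t => h t *
      (I * ((Z 0 (inl 1) ^ 3 * Z 0 (inr (j, 0)) * NN (Z 0) * SS (Z 0) : ℝ) : ℂ) * bb (Z t) j) := fun j t ht =>
    (((c (inr (j, 1)) t ht).ofReal_comp).fun_add ((c (inr (j, 2)) t ht).ofReal_comp.mul_const I)).congr_deriv (by
      obtain ⟨-, a2, -, -, a3, -⟩ := cons k t ht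
      obtain ⟨b1, -, b3⟩ := cons' k t ht
      rw [← a2, ← a3, ← b1, ← b3]
      simp only [F, bb, Matrix.cons_val]
      push_cast
      linear_combination (-(h t * Z t (inl 1) ^ 3 * Z t (inr (j, 0)) * NN (Z t) * SS (Z t) * Z t (inr (j, 2)))) * I_sq)
  intro t ht
  refine ⟨e t ht ▸ geo_uniq' hτ t0 hh c4 ha t ht, fun j => ?_⟩
  have r : ∀ (c : ℝ) b w t, rot (c * b) w t = c * rot b w t := fun c b w t => by simp [rot, mul_assoc]
  rw [r, ← rot_uniq' hτ t0 hh (c5 j) t ht, e t ht, FF, (cons k t ht).1]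
  have : ((Z 0 (inl 0) : ℂ) * (Z 0 (inl 0) + Z t (inl 3) + Z t (inl 4) * I) / SS (Z 0)) *
      (starRingEnd ℂ) ((SS (Z 0) / TT (Z 0) : ℝ) * bb (Z t) j) = ((Z 0 (inl 0) / TT (Z 0) : ℝ) : ℂ) *
      ((Z 0 (inl 0) + Z t (inl 3) + Z t (inl 4) * I) * (starRingEnd ℂ) (bb (Z t) j)) := by
    rw [map_mul, conj_ofReal]
    push_cast
    field_simp
  rw [this, re_ofReal_mul]
  simp [bb]
  field_simp

end Pool.Agent.H.MP_6fff33_lc
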