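import Mathlib
import Pool.Agent.H.MP_6fff33_lc.B

set_option autoImplicit false

namespace Pool.Agent.H.MP_6fff33_lc

open Set Complex Sum Pool.Agent.H.MP_c22137_lc

variable {ι : Type} [Fintype ι] {Pn : ℝ → (ι → ℝ) → ℝ}

theorem exists_a' (z : V ι → ℝ) (h : 4 * (z (inl 3) ^ 2 + z (inl 4) ^ 2) < z (inl 0) ^ 2) :
    ∃ a, GG' z * (1 - a) = 1 ∧ ‖a‖ ≤ 1 / 2 := by
  have s0 : z (inl 0) ≠ 0 := fun c => by rw [c] at h; nlinarith [sq_nonneg (z (inl 3)), sq_nonneg (z (inl 4))]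
  have S0 : (SS z : ℂ) ≠ 0 := by
    have : 0 < SS z := by unfold SS; nlinarith [sq_nonneg (z (inl 3)), sq_nonneg (z (inl 4))]
    exact_mod_cast this.ne'
  have b4 : (SS z : ℂ) = z (inl 0) ^ 2 - (z (inl 3) ^ 2 + z (inl 4) ^ 2) := by simp [SS]
  have P0 : (z (inl 0) : ℂ) + z (inl 3) + z (inl 4) * I ≠ 0 := fun c => by
    have := congrArg re c
    simp at this
    have : z (inl 0) = - z (inl 3) := by linarith
    rw [this] at h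
    nlinarith [sq_nonneg (z (inl 3)), sq_nonneg (z (inl 4))]
  have s1 : (z (inl 0) : ℂ) ≠ 0 := by exact_mod_cast s0
  refine ⟨(z (inl 3) + z (inl 4) * I) * (starRingEnd ℂ) (z (inl 0) + z (inl 3) + z (inl 4) * I) /
    (z (inl 0) * (z (inl 0) + z (inl 3) + z (inl 4) * I)), ?_, ?_⟩
  · simp only [GG', map_add, map_mul, conj_ofReal, conj_I]
    field_simp
    rw [b4]
    linear_combination (z (inl 4) : ℂ) ^ 2 * I_sq
  · rw [norm_div, norm_mul, norm_mul, RCLike.norm_conj, mul_div_mul_right _ _ (norm_ne_zero_iff.2 P0), norm_real,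
      div_le_iff₀ (norm_pos_iff.2 s0), Complex.norm_add_mul_I, Real.norm_eq_abs]
    refine Real.sqrt_le_iff.2 ⟨by positivity, ?_⟩
    rw [mul_pow, sq_abs]
    linarith

variable {T : ℝ} {Z : ℝ → V ι → ℝ} {τ h : ℝ → ℝ}

theorem R_eq (k : D T Z fun t => h t • F (Z t)) : ∀ t ∈ Icc (0 : ℝ) T, R Pn (Z t) = Z 0 (inl 1) ^ 4 * (Z 0 (inl 2) ^ 2 *
    (Z 0 (inl 0) ^ 2 - 4 * (Z 0 (inl 3) ^ 2 + Z 0 (inl 4) ^ 2)) - 2 * TT (Z 0) * ∑ j, (Z t (inr (j, 3)) - Z 0 (inl 2)) ^ 2) -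
      Z 0 (inl 2) ^ 2 * TT (Z 0) * Pn (Z 0 (inl 1)) fun j => Z 0 (inr (j, 0)) := fun t ht => by
  obtain ⟨a, b, c, d, e, -⟩ := cons k t ht
  simp only [R, a, b, c, d, e, (cons' k t ht).2.1]

theorem atan (k : D T Z fun t => h t • F (Z t)) (hY : Z 0 (inl 2) ≠ 0) (j : ι) :
    D T (fun t => Real.arctan (Z t (inr (j, 3)) / Z 0 (inl 2))) fun t =>
      h t * Z 0 (inl 1) ^ 4 * Z 0 (inl 2) * (FF (Z t) j - TT (Z 0) * Z t (inr (j, 3))) := fun t ht =>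
  ((Real.hasDerivAt_arctan _).comp_hasDerivWithinAt t ((qeq k j t ht).div_const (Z 0 (inl 2)))).congr_deriv (by
    have : 0 < Z 0 (inl 2) ^ 2 + Z t (inr (j, 3)) ^ 2 := by positivity
    field_simp)

theorem upper (h0 : ∀ w ω, 0 ≤ Pn w ω) {θ : ℝ} (hθ : 0 < θ)
    (H : ∀ (w : ℝ) (ω : ι → ℝ) (k : ι → ℕ) (ϑ : ℝ), 0 < ϑ → Pn w ω < w ^ 4 →
      ¬ ∀ j, |k j * w - ω j| < ϑ * |w| ∧ ϑ * (k j + 1) ≤ θ) :
    ∃ C, 0 ≤ C ∧ ∀ (T : ℝ) (τ h : ℝ → ℝ) (Z : ℝ → V ι → ℝ), (D T Z fun t => h t • F (Z t)) → D T τ h → τ 0 = 0 →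
      ContinuousOn h (Icc 0 T) → (∀ t, 0 ≤ h t) → ∃ Φ Φ' : ℝ → ℝ, D T Φ Φ' ∧ (∀ t ∈ Icc (0 : ℝ) T, |Φ t| ≤ C) ∧
        ∀ t ∈ Icc (0 : ℝ) T, h t * R Pn (Z t) ≤ Φ' t := by
  obtain ⟨η, η0, η1, η2⟩ : ∃ η : ℝ, 0 < η ∧ η ≤ 1 / 2 ∧ 8 * η ≤ θ :=
    ⟨min (1 / 2) (θ / 8), by positivity, min_le_left _ _, by have := min_le_right (1 / 2) (θ / 8); linarith⟩
  refine ⟨14 / η + 8, by positivity, fun T τ h Z k hτ t0 hh hp => ?_⟩
  have e0 := R_eq (Pn := Pn) k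
  have p0 := h0 (Z 0 (inl 1)) fun j => Z 0 (inr (j, 0))
  have u0 : 0 ≤ Z 0 (inl 3) ^ 2 + Z 0 (inl 4) ^ 2 := by positivity
  have T0 : 0 ≤ TT (Z 0) := by unfold TT; positivity
  have T1 : TT (Z 0) = Z 0 (inl 0) ^ 2 + (Z 0 (inl 3) ^ 2 + Z 0 (inl 4) ^ 2) := rfl
  have S1 : SS (Z 0) = Z 0 (inl 0) ^ 2 - (Z 0 (inl 3) ^ 2 + Z 0 (inl 4) ^ 2) := rfl
  by_cases triv : Z 0 (inl 1) ^ 4 * (Z 0 (inl 2) ^ 2 * (Z 0 (inl 0) ^ 2 - 4 * (Z 0 (inl 3) ^ 2 + Z 0 (inl 4) ^ 2))) ≤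
      Z 0 (inl 2) ^ 2 * TT (Z 0) * Pn (Z 0 (inl 1)) fun j => Z 0 (inr (j, 0))
  · refine ⟨fun _ => 0, fun _ => 0, D.of_at fun t => hasDerivAt_const _ _, fun _ _ => by simp; positivity, fun t ht => ?_⟩
    have : 0 ≤ Z 0 (inl 1) ^ 4 * (2 * TT (Z 0) * ∑ j, (Z t (inr (j, 3)) - Z 0 (inl 2)) ^ 2) := by positivity
    refine mul_nonpos_of_nonneg_of_nonpos (hp t) ?_
    rw [e0 t ht]
    linarith
  push Not at triv
  have Y0 : Z 0 (inl 2) ≠ 0 := fun c => by simp [c] at triv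
  have Y2 : 0 < Z 0 (inl 2) ^ 2 := by positivity
  have w4 : 0 ≤ Z 0 (inl 1) ^ 4 := by positivity
  have U1 : 4 * (Z 0 (inl 3) ^ 2 + Z 0 (inl 4) ^ 2) < Z 0 (inl 0) ^ 2 := by
    by_contra c
    push Not at c
    have := mul_nonneg w4 (mul_nonneg Y2.le (sub_nonneg.2 c))
    have := mul_nonneg (mul_nonneg Y2.le T0) p0
    linarith
  have T2 : 0 < TT (Z 0) := by linarith
  have S2 : 3 * TT (Z 0) ≤ 5 * SS (Z 0) := by linarith
  have S0 : 0 < SS (Z 0) := by linarith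
  have P1 : (Pn (Z 0 (inl 1)) fun j => Z 0 (inr (j, 0))) < Z 0 (inl 1) ^ 4 := by
    refine lt_of_mul_lt_mul_left (a := Z 0 (inl 2) ^ 2 * TT (Z 0)) (triv.trans_le ?_) (by positivity)
    rw [T1]
    nlinarith [mul_nonneg (mul_nonneg w4 Y2.le) u0]
  have w0 : 0 < |Z 0 (inl 1)| := abs_pos.2 fun c => by rw [c] at P1 p0; simp at P1; linarith
  obtain ⟨a, ha, a2⟩ := exists_a' (Z 0) U1
  have e1 := expl' k hτ t0 hh S0.ne' T2.ne' ha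
  have e2 := atan k Y0
  obtain ⟨ν, ν0, ν1, ν2, ν3⟩ : ∃ ν : ℝ, 0 < ν ∧ NN (Z 0) = ν ^ 2 ∧ |Z 0 (inl 2)| ≤ ν ∧
      ∀ j, ‖((SS (Z 0) / TT (Z 0) : ℝ) : ℂ) * bb (Z 0) j‖ ≤ ν := by
    have n0 : 0 ≤ ∑ j, (Z 0 (inr (j, 1)) ^ 2 + Z 0 (inr (j, 2)) ^ 2) := by positivity
    have n1 : 0 < NN (Z 0) := by unfold NN; positivity
    refine ⟨√(NN (Z 0)), Real.sqrt_pos.2 n1, (Real.sq_sqrt n1.le).symm, Real.abs_le_sqrt (by unfold NN; nlinarith), fun j => ?_⟩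
    rw [norm_mul, norm_real, Real.norm_eq_abs, abs_of_pos (by positivity), bb, Complex.norm_add_mul_I]
    refine (mul_le_of_le_one_left (by positivity) ((div_le_one T2).2 (by linarith))).trans (Real.sqrt_le_sqrt ?_)
    have := Finset.single_le_sum (f := fun j => Z 0 (inr (j, 1)) ^ 2 + Z 0 (inr (j, 2)) ^ 2) (fun _ _ => by positivity) (Finset.mem_univ j)
    unfold NN
    nlinarith
  rw [ν1] at e1
  generalize Z 0 (inl 1) = w at *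
  generalize Z 0 (inl 2) = Y at *
  generalize SS (Z 0) = S at *
  generalize TT (Z 0) = Tt at *
  obtain ⟨b, hb⟩ : ∃ b : ι → ℂ, ∀ j, ((S / Tt : ℝ) : ℂ) * bb (Z 0) j = b j := ⟨_, fun _ => rfl⟩
  simp only [hb] at e1 ν3
  have Y1 : 0 < |Y| := abs_pos.2 Y0
  obtain ⟨ϑ, v0, v1⟩ : ∃ ϑ : ℝ, 0 < ϑ ∧ ϑ * ν = η * |Y| := ⟨η * |Y| / ν, by positivity, by field_simp⟩
  have v2 : ϑ ≤ 1 / 2 := by
    refine le_of_mul_le_mul_right ?_ ν0
    nlinarith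
  have sm : ∀ j (y : ℝ), 0 < y → ∀ l, ∃ N, l < N ∧ ‖a‖ ^ N * ‖b j‖ ≤ y := fun j y hy l => by
    obtain ⟨N, n1, n2⟩ := small (norm_nonneg a) a2 le_rfl (show 0 < y / ν by positivity) l
    refine ⟨N, n1, ?_⟩
    rw [mul_one, le_div_iff₀ ν0] at n2
    exact (mul_le_mul_of_nonneg_left (ν3 j) (by positivity)).trans n2
  obtain ⟨j, l, g1, g2⟩ : ∃ j, ∃ l : ℕ, ‖a‖ ^ l * ‖b j‖ ≤ |Y| / 8 ∧
      ∀ l' ≠ l, ϑ * |w| ≤ |(l' : ℕ) * w - Z 0 (inr (j, 0))| := by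
    by_contra c
    push Not at c
    have : ∀ j, ∃ l : ℕ, |l * w - Z 0 (inr (j, 0))| < ϑ * |w| ∧ ϑ * (l + 1) ≤ θ := fun j => by
      obtain ⟨N, -, hN⟩ := sm j (|Y| / 8) (by positivity) 0
      obtain ⟨l, -, hl⟩ := c j N hN
      refine ⟨l, hl, ?_⟩
      by_contra c2
      push Not at c2
      have k1 : ‖a‖ ^ l ≤ (1 / 2) ^ l := pow_le_pow_left₀ (norm_nonneg _) a2 _
      have k2 : ((l : ℝ) + 1) * (1 / 2) ^ l ≤ 1 := by
        have : (l : ℝ) + 1 ≤ 2 ^ l := by exact_mod_cast Nat.lt_two_pow_self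
        rw [one_div, inv_pow, mul_inv_le_iff₀ (by positivity)]
        linarith
      obtain ⟨l', n, hl'⟩ := c j l (by
        have k3 : ‖a‖ ^ l * ‖b j‖ ≤ (1 / 2) ^ l * ν := by gcongr; exact ν3 j
        have k4 : (0 : ℝ) < (l + 1) * η := by positivity
        refine k3.trans (le_of_mul_le_mul_left ?_ k4)
        have k5 := mul_le_mul_of_nonneg_right k2 (mul_pos η0 ν0).le
        have k6 := mul_le_mul_of_nonneg_right (η2.trans c2.le) ν0.le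
        have k7 : ϑ * (l + 1) * ν = (l + 1) * η * |Y| := by linear_combination (l + 1) * v1
        linarith)
      have k5 : (1 : ℝ) ≤ |(l' : ℝ) - l| := by
        have : (1 : ℤ) ≤ |(l' : ℤ) - l| := Int.one_le_abs (sub_ne_zero.2 (by exact_mod_cast n))
        exact_mod_cast this
      have k6 : |(l' : ℝ) - l| * |w| ≤ |l' * w - Z 0 (inr (j, 0))| + |l * w - Z 0 (inr (j, 0))| := by
        rw [← abs_mul, show ((l' : ℝ) - l) * w = (l' * w - Z 0 (inr (j, 0))) - (l * w - Z 0 (inr (j, 0))) by ring]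
        exact abs_sub _ _
      nlinarith
    choose k hk using this
    exact H w _ k ϑ v0 P1 hk
  obtain ⟨N, hN, hN'⟩ := sm j (|Y| / 16) (by positivity) l
  have w5 : w ^ 4 = |w| ^ 4 := (Even.pow_abs (by decide) w).symm
  obtain ⟨A, A', f1, f2, f3⟩ := four a (b j) (w ^ 4 * ν ^ 2 * S) (w ^ 3 * Z 0 (inr (j, 0)) * ν ^ 2 * S) (w ^ 4 * ν ^ 2 * S * ϑ) a2
    (by rw [w5]; positivity) N l hN fun l' n => by
      rw [show l' * (w ^ 4 * ν ^ 2 * S) - w ^ 3 * Z 0 (inr (j, 0)) * ν ^ 2 * S = w ^ 3 * (ν ^ 2 * S) * (l' * w - Z 0 (inr (j, 0))) by ring,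
        abs_mul, abs_mul, abs_pow, abs_of_pos (show 0 < ν ^ 2 * S by positivity), w5]
      exact le_of_eq_of_le (by ring) (mul_le_mul_of_nonneg_left (g2 l' n) (by positivity))
  refine ⟨fun t => 4 * w ^ 4 * Tt * Y * A (τ t) - 4 * Real.arctan (Z t (inr (j, 3)) / Y), _, fun t ht =>
    (((f1 (τ t)).comp_hasDerivWithinAt t (hτ t ht)).const_mul _).fun_sub ((e2 j t ht).const_mul _), fun t ht => ?_, fun t ht => ?_⟩
  · refine (abs_sub _ _).trans (add_le_add ?_ ?_)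
    · have k2 := f2 (τ t)
      rw [le_div_iff₀ (by rw [w5]; positivity)] at k2
      rw [abs_mul, abs_mul, abs_of_nonneg (show 0 ≤ 4 * w ^ 4 * Tt by positivity), le_div_iff₀ η0]
      refine le_of_mul_le_mul_right ?_ (mul_pos ν0 S0)
      have k3 : 4 * w ^ 4 * Tt * |Y| * |A (τ t)| * η * (ν * S) = 4 * Tt * (|A (τ t)| * (w ^ 4 * ν ^ 2 * S * ϑ)) := by
        linear_combination (-(4 * w ^ 4 * Tt * |A (τ t)| * ν * S)) * v1
      have k4 := mul_le_mul_of_nonneg_left (k2.trans (show _ ≤ 2 * ν by linarith [ν3 j])) (show 0 ≤ 4 * Tt by positivity)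
      nlinarith
    · rw [abs_mul, show |(4 : ℝ)| = 4 by norm_num]
      have := Real.arctan_lt_pi_div_two (Z t (inr (j, 3)) / Y)
      have := Real.neg_pi_div_two_lt_arctan (Z t (inr (j, 3)) / Y)
      have := Real.pi_le_four
      rcases abs_cases (Real.arctan (Z t (inr (j, 3)) / Y)) with c | c <;> linarith
  · have k1 := f3 (τ t) _ (e1 t ht).1
    beta_reduce
    rw [e0 t ht, (e1 t ht).2 j]
    have k2 := abs_re_le_norm (rot (a ^ l * (starRingEnd ℂ) (b j)) (l * (w ^ 4 * ν ^ 2 * S) - w ^ 3 * Z 0 (inr (j, 0)) * ν ^ 2 * S) (τ t))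
    rw [norm_rot, norm_mul, norm_pow, RCLike.norm_conj] at k2
    generalize (GG' (Z t) * (starRingEnd ℂ) (rot (b j) (w ^ 3 * Z 0 (inr (j, 0)) * ν ^ 2 * S) (τ t))).re = f at k1 ⊢
    generalize (rot (a ^ l * (starRingEnd ℂ) (b j)) (l * (w ^ 4 * ν ^ 2 * S) - w ^ 3 * Z 0 (inr (j, 0)) * ν ^ 2 * S) (τ t)).re = c at k1 k2
    have k3 : |f - A' (τ t)| ≤ |Y| / 4 := by
      have := abs_add_le (f - A' (τ t) - c) c
      rw [sub_add_cancel] at this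
      linarith
    have k4 : Y * (f - A' (τ t)) ≤ Y ^ 2 / 4 := by
      refine (le_abs_self _).trans ?_
      rw [abs_mul, ← sq_abs]
      nlinarith
    have k5 : (Z t (inr (j, 3)) - Y) ^ 2 ≤ ∑ j, (Z t (inr (j, 3)) - Y) ^ 2 :=
      Finset.single_le_sum (f := fun j => (Z t (inr (j, 3)) - Y) ^ 2) (fun _ _ => sq_nonneg _) (Finset.mem_univ j)
    have k6 : Y ^ 2 * (Z 0 (inl 0) ^ 2 - 4 * (Z 0 (inl 3) ^ 2 + Z 0 (inl 4) ^ 2)) - 2 * Tt * ∑ j, (Z t (inr (j, 3)) - Y) ^ 2 ≤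
        Tt * (4 * Y * A' (τ t) - 4 * Y * (f - Z t (inr (j, 3)))) := by
      have a1 := mul_le_mul_of_nonneg_left k5 T0
      have a2 := mul_le_mul_of_nonneg_left k4 T0
      have a3 : 0 ≤ Tt * Z t (inr (j, 3)) ^ 2 := by positivity
      have a4 := mul_nonneg Y2.le u0
      have a5 : Y ^ 2 * Tt = Y ^ 2 * (Z 0 (inl 0) ^ 2 + (Z 0 (inl 3) ^ 2 + Z 0 (inl 4) ^ 2)) := by rw [T1]
      linear_combination 2 * a1 + 4 * a2 + 2 * a3 + 5 * a4 - a5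
    have k7 := mul_le_mul_of_nonneg_left k6 (mul_nonneg (hp t) w4)
    have k8 := mul_nonneg (hp t) (mul_nonneg (mul_nonneg Y2.le T0) p0)
    linear_combination k7 + k8

end Pool.Agent.H.MP_6fff33_lc
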