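import Mathlib
import Pool.Agent.H.MP_6fff33_lc.C

set_option autoImplicit false

namespace Pool.Agent.H.MP_6fff33_lc

open Set Complex Sum Pool.Agent.H.MP_c22137_lc

variable {ι : Type} [Fintype ι] {Pn : ℝ → (ι → ℝ) → ℝ} {T : ℝ} {Z : ℝ → V ι → ℝ} {τ h : ℝ → ℝ}

theorem bnd (k : D T Z fun t => h t • F (Z t)) (hh : ContinuousOn h (Icc 0 T)) (hp : ∀ t, 0 ≤ h t) :
    ∀ t ∈ Icc (0 : ℝ) T, ‖Z t‖ ≤ 3 * ‖Z 0‖ := by
  have hx : ∀ v, |Z 0 v| ≤ ‖Z 0‖ := fun v => norm_le_pi_norm (Z 0) v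
  have n0 := norm_nonneg (Z 0)
  have two : ∀ a b u v, a ^ 2 + b ^ 2 = Z 0 u ^ 2 + Z 0 v ^ 2 → |a| ≤ 3 / 2 * ‖Z 0‖ ∧ |b| ≤ 3 / 2 * ‖Z 0‖ := fun a b u v e => by
    have h1 := sq_le_sq' (abs_le.1 (hx u)).1 (abs_le.1 (hx u)).2
    have h2 := sq_le_sq' (abs_le.1 (hx v)).1 (abs_le.1 (hx v)).2
    constructor <;> refine abs_le_of_sq_le_sq' ?_ (by positivity) |> abs_le.2 <;> nlinarith [sq_nonneg a, sq_nonneg b]
  have q : ∀ j, ∀ t ∈ Icc (0 : ℝ) T, |Z t (inr (j, 3))| ≤ 3 * ‖Z 0‖ := fun j =>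
    absbar (qeq k j) ((hh.mul continuousOn_const).mul (continuousOn_const.add ((qeq k j).cont.pow 2)))
      (fun t _ => by have := hp t; positivity) (fun t ht => by
        obtain ⟨c1, c2⟩ := two _ _ _ _ ((cons k t ht).2.2.2.2.2 j)
        rw [← (cons' k t ht).2.1, FF, TT, abs_mul, ← sq_abs (Z t (inl 0)), ← sq_abs (Z t (inl 3)), ← sq_abs (Z t (inl 4))]
        have a1 : |(Z t (inl 0) + Z t (inl 3)) * Z t (inr (j, 1)) + Z t (inl 4) * Z t (inr (j, 2))| ≤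
            (|Z t (inl 0)| + |Z t (inl 3)|) * (3 / 2 * ‖Z 0‖) + |Z t (inl 4)| * (3 / 2 * ‖Z 0‖) := by
          refine (abs_add_le _ _).trans ?_
          rw [abs_mul, abs_mul]
          gcongr
          exact abs_add_le _ _
        refine (mul_le_mul_of_nonneg_left a1 (abs_nonneg _)).trans ?_
        generalize |Z t (inl 0)| = a
        generalize |Z t (inl 3)| = b
        generalize |Z t (inl 4)| = c
        have := mul_nonneg n0 (show 0 ≤ 2 * (a ^ 2 + (b ^ 2 + c ^ 2)) - a * (a + b + c) by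
          nlinarith [sq_nonneg (a - b), sq_nonneg (a - c), sq_nonneg b, sq_nonneg c])
        linarith) ((hx _).trans (by linarith))
  intro t ht
  obtain ⟨a, b, c, d, e, f⟩ := cons k t ht
  refine (pi_norm_le_iff_of_nonneg (by positivity)).2 fun v => ?_
  rw [Real.norm_eq_abs]
  rcases v with i | ⟨j, i⟩ <;> fin_cases i
  · exact (a ▸ hx (inl 0) :).trans (by linarith)
  · exact (b ▸ hx (inl 1) :).trans (by linarith)
  · exact (c ▸ hx (inl 2) :).trans (by linarith)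
  · exact (two _ _ _ _ d).1.trans (by linarith)
  · exact (two _ _ _ _ d).2.trans (by linarith)
  · exact (e j ▸ hx (inr (j, 0)) :).trans (by linarith)
  · exact (two _ _ _ _ (f j)).1.trans (by linarith)
  · exact (two _ _ _ _ (f j)).2.trans (by linarith)
  · exact q j t ht

theorem low {z : V ι → ℝ} (hz : z ≠ 0) : ∃ c, 0 < c ∧ ∀ (T : ℝ) (h : ℝ → ℝ) (Z : ℝ → V ι → ℝ), Z 0 = z →
    (D T Z fun t => h t • F (Z t)) → ∀ t ∈ Icc (0 : ℝ) T, c ≤ nq (Z t) := by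
  by_cases w : z (inl 1) = 0
  · obtain ⟨v, hv⟩ := Function.ne_iff.1 hz
    refine ⟨z v ^ 2, sq_pos_of_ne_zero hv, fun T h Z h0 k t ht => ?_⟩
    rw [D.const (k.congr fun s hs => ?_) t ht, h0]
    · exact Finset.single_le_sum (f := fun v => z v ^ 2) (fun _ _ => sq_nonneg _) (Finset.mem_univ v)
    · have : Z s (inl 1) = 0 := by rw [(cons k s hs).2.1, h0, w]
      ext v
      rcases v with i | ⟨j, i⟩ <;> fin_cases i <;> simp [F, this]
  · refine ⟨z (inl 1) ^ 2, sq_pos_of_ne_zero w, fun T h Z h0 k t ht => ?_⟩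
    rw [← h0, ← (cons k t ht).2.1]
    exact Finset.single_le_sum (f := fun v => Z t v ^ 2) (fun _ _ => sq_nonneg _) (Finset.mem_univ _)

theorem lower (k : ι → ℕ) (hk : Pn 1 (fun j => k j) = 0) : ∃ (z : V ι → ℝ) (c : ℝ), 0 < c ∧ z (inl 0) = 1 ∧
    ∀ (T : ℝ) (τ h : ℝ → ℝ) (Z : ℝ → V ι → ℝ), Z 0 = z → (D T Z fun t => h t • F (Z t)) → D T τ h → τ 0 = 0 →
      ContinuousOn h (Icc 0 T) → (∀ t, 0 < h t) → ∀ t ∈ Icc (0 : ℝ) T, c ≤ R Pn (Z t) := by
  obtain ⟨K, hK⟩ : ∃ K : ℕ, ∀ j, k j ≤ K :=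
    ⟨∑ j, k j, fun j => Finset.single_le_sum (f := k) (fun _ _ => Nat.zero_le _) (Finset.mem_univ j)⟩
  obtain ⟨m, hm⟩ : ∃ m : ℝ, m = Fintype.card ι := ⟨_, rfl⟩
  have m0 : 0 ≤ m := by rw [hm]; positivity
  obtain ⟨e, e0, e1⟩ : ∃ e : ℝ, 0 < e ∧ 4 * e * (m + 1) = 1 := ⟨1 / (4 * (m + 1)), by positivity, by field_simp⟩
  obtain ⟨α, a0, a1, a2⟩ : ∃ α : ℝ, 0 < α ∧ Real.arctan (1 + e / 2) + 2 * α < Real.arctan (1 + e) ∧
      Real.arctan (1 - e) + 2 * α < Real.arctan (1 - e / 2) := by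
    have p1 := Real.arctan_strictMono (show 1 + e / 2 < 1 + e by linarith)
    have p2 := Real.arctan_strictMono (show 1 - e < 1 - e / 2 by linarith)
    refine ⟨min (Real.arctan (1 + e) - Real.arctan (1 + e / 2)) (Real.arctan (1 - e / 2) - Real.arctan (1 - e)) / 3,
      by have := sub_pos.2 p1; have := sub_pos.2 p2; positivity, ?_, ?_⟩
    · linarith [min_le_left (Real.arctan (1 + e) - Real.arctan (1 + e / 2)) (Real.arctan (1 - e / 2) - Real.arctan (1 - e))]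
    · linarith [min_le_right (Real.arctan (1 + e) - Real.arctan (1 + e / 2)) (Real.arctan (1 - e / 2) - Real.arctan (1 - e))]
  obtain ⟨Y, Y0, Y1⟩ : ∃ Y : ℝ, 0 < Y ∧ 3 * Y ^ 2 * 4 ^ K ≤ α := by
    refine ⟨min 1 (α / (3 * 4 ^ K)), by positivity, ?_⟩
    have := (le_div_iff₀ (show (0 : ℝ) < 3 * 4 ^ K by positivity)).1 (min_le_right 1 (α / (3 * 4 ^ K)))
    have h1 := min_le_left 1 (α / (3 * 4 ^ K))
    have h2 : 0 < min 1 (α / (3 * 4 ^ K)) * (3 * 4 ^ K) := by positivity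
    nlinarith
  let x : V ι → ℝ := fun v => match v with
    | inl i => ![1, 1, Y, 1 / 4, 0] i
    | inr (j, i) => ![(k j : ℝ), 17 / 15 * Y * 4 ^ k j, 0, Y] i
  have S0 : SS x = 15 / 16 := by simp [SS, x]; norm_num
  have T0 : TT x = 17 / 16 := by simp [TT, x]; norm_num
  have ha : GG' x * (1 - ((1 / 4 : ℝ) : ℂ)) = 1 := by
    rw [GG', S0]
    simp [x]
    norm_num
  have N1 : 1 ≤ NN x := by
    have : 0 ≤ ∑ j, (x (inr (j, 1)) ^ 2 + x (inr (j, 2)) ^ 2) := by positivity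
    have h1 : x (inl 0) = 1 := rfl
    rw [NN, h1]
    nlinarith [sq_nonneg (x (inl 2))]
  have b0 : ∀ j, ((15 / 16 / (17 / 16) : ℝ) : ℂ) * bb x j = ((Y * 4 ^ k j : ℝ) : ℂ) := fun j => by
    simp [bb, x]
    ring
  refine ⟨x, Y ^ 2 / 2, by positivity, rfl, fun T τ h Z h0 d hτ t0 hh hp => ?_⟩
  have x1 : x (inl 1) = 1 := rfl
  have x2 : x (inl 2) = Y := rfl
  have x3 : ∀ j, x (inr (j, 0)) = k j := fun _ => rfl
  have g1 := expl' d hτ t0 hh (by rw [h0, S0]; norm_num) (by rw [h0, T0]; norm_num) (h0 ▸ ha)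
  have g2 := atan d (by rw [h0, x2]; exact Y0.ne')
  simp only [h0, S0, T0, b0, x1, x2, x3, one_pow, one_mul, mul_one] at g1 g2
  have q : ∀ j, ∀ t ∈ Icc (0 : ℝ) T, |Z t (inr (j, 3)) - Y| ≤ e * Y := fun j => by
    obtain ⟨N, hN, hN'⟩ := small (r := 1 / 4) (by norm_num) (by norm_num) le_rfl (show 0 < e / (4 * 4 ^ k j) by positivity) (k j)
    have Ω : 0 < NN x * (15 / 16) := by positivity
    obtain ⟨A, A', f1, f2, f3⟩ := four ((1 / 4 : ℝ) : ℂ) ((Y * 4 ^ k j : ℝ) : ℂ) (NN x * (15 / 16)) (k j * NN x * (15 / 16)) _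
      (by simp; norm_num) Ω N (k j) hN fun l n => by
        have k5 : (1 : ℝ) ≤ |(l : ℝ) - k j| := by
          have : (1 : ℤ) ≤ |(l : ℤ) - k j| := Int.one_le_abs (sub_ne_zero.2 (by exact_mod_cast n))
          exact_mod_cast this
        rw [mul_assoc, ← sub_mul, abs_mul, abs_of_pos Ω]
        nlinarith
    have e' : ∀ t, (rot (((1 / 4 : ℝ) : ℂ) ^ k j * (starRingEnd ℂ) ((Y * 4 ^ k j : ℝ) : ℂ))
        (k j * (NN x * (15 / 16)) - k j * NN x * (15 / 16)) t).re = Y := fun t => by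
      have : ((1 / 4 : ℝ) : ℂ) ^ k j * (starRingEnd ℂ) ((Y * 4 ^ k j : ℝ) : ℂ) = Y := by
        rw [conj_ofReal]
        push_cast
        rw [one_div, inv_pow]
        field_simp
      rw [rot, this, mul_assoc (k j : ℝ), sub_self]
      simp
    simp only [e', norm_real, Real.norm_eq_abs, abs_of_pos (show 0 < Y * 4 ^ k j by positivity),
      abs_of_pos (show (0 : ℝ) < 1 / 4 by norm_num)] at f2 f3
    have p1 : ∀ t, |17 / 16 * Y * A t| ≤ α := fun t => by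
      have := (le_div_iff₀ Ω).1 (f2 t)
      have p : (4 : ℝ) ^ k j ≤ 4 ^ K := pow_le_pow_right₀ (by norm_num) (hK j)
      rw [abs_mul, abs_of_pos (by positivity)]
      have p2 : |A t| * (15 / 16) ≤ 2 * (Y * 4 ^ K) := by nlinarith [abs_nonneg (A t), mul_le_mul_of_nonneg_left p Y0.le]
      nlinarith [mul_le_mul_of_nonneg_left p2 Y0.le, mul_pos (pow_pos Y0 2) (show (0 : ℝ) < 4 ^ K by positivity)]
    have p2 : ∀ t ∈ Icc (0 : ℝ) T, |(GG' (Z t) * (starRingEnd ℂ) (rot ((Y * 4 ^ k j : ℝ) : ℂ) (k j * NN x * (15 / 16)) (τ t))).re -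
        A' (τ t) - Y| ≤ e / 2 * Y := fun t ht => by
      refine (f3 (τ t) _ (g1 t ht).1).trans ?_
      rw [mul_one, le_div_iff₀ (by positivity)] at hN'
      nlinarith
    have dv : D T (fun t => Real.arctan (Z t (inr (j, 3)) / Y) - 17 / 16 * Y * A (τ t)) fun t => h t * Y * (17 / 16) *
        ((GG' (Z t) * (starRingEnd ℂ) (rot ((Y * 4 ^ k j : ℝ) : ℂ) (k j * NN x * (15 / 16)) (τ t))).re - A' (τ t) - Z t (inr (j, 3))) :=
      fun t ht => ((g2 j t ht).fun_sub (((f1 (τ t)).comp_hasDerivWithinAt t (hτ t ht)).const_mul _)).congr_deriv (by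
        beta_reduce
        rw [(g1 t ht).2 j]
        ring)
    have i0 : Z 0 (inr (j, 3)) / Y = 1 := by rw [h0]; exact div_self Y0.ne'
    have i1 := Real.arctan_strictMono (show 1 < 1 + e / 2 by linarith)
    have i2 := Real.arctan_strictMono (show 1 - e / 2 < 1 by linarith)
    have u1 := fence dv (M := Real.arctan (1 + e) - α) (by
      simp only [i0]
      linarith [abs_le.1 (p1 (τ 0))]) fun t ht c => by
        have : 1 + e / 2 < Z t (inr (j, 3)) / Y := Real.arctan_strictMono.lt_iff_lt.1 (by linarith [abs_le.1 (p1 (τ t))])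
        rw [lt_div_iff₀ Y0] at this
        exact mul_neg_of_pos_of_neg (by have := hp t; positivity) (by linarith [abs_le.1 (p2 t ht)])
    have u2 := fence (fun t ht => (dv t ht).fun_neg) (M := -(Real.arctan (1 - e) + α)) (by
      simp only [i0]
      linarith [abs_le.1 (p1 (τ 0))]) fun t ht c => by
        have : Z t (inr (j, 3)) / Y < 1 - e / 2 := Real.arctan_strictMono.lt_iff_lt.1 (by linarith [abs_le.1 (p1 (τ t))])
        rw [div_lt_iff₀ Y0] at this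
        exact neg_neg_of_pos (mul_pos (by have := hp t; positivity) (by linarith [abs_le.1 (p2 t ht)]))
    intro t ht
    have v1 : Z t (inr (j, 3)) / Y ≤ 1 + e := Real.arctan_strictMono.le_iff_le.1 (by linarith [abs_le.1 (p1 (τ t)), u1 t ht])
    have v2 : 1 - e ≤ Z t (inr (j, 3)) / Y := Real.arctan_strictMono.le_iff_le.1 (by linarith [abs_le.1 (p1 (τ t)), u2 t ht])
    rw [div_le_iff₀ Y0] at v1
    rw [le_div_iff₀ Y0] at v2
    exact abs_le.2 ⟨by linarith, by linarith⟩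
  intro t ht
  have k1 : ∑ j, (Z t (inr (j, 3)) - Y) ^ 2 ≤ m * (e * Y) ^ 2 := by
    rw [hm, ← nsmul_eq_mul, ← Finset.card_univ]
    exact Finset.sum_le_card_nsmul _ _ _ fun j _ => sq_le_sq.2 ((q j t ht).trans (le_abs_self _))
  have k2 : m * (e * Y) ^ 2 ≤ Y ^ 2 / 16 := by
    have a1 : m * e ≤ 1 / 4 := by nlinarith
    have a2 : e ≤ 1 / 4 := by nlinarith
    have a3 : m * e * e ≤ 1 / 4 * (1 / 4) := by gcongr
    nlinarith [sq_nonneg Y]
  have x0 : x (inl 0) = 1 := rfl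
  have x4 : x (inl 3) = 1 / 4 := rfl
  have x5 : x (inl 4) = 0 := rfl
  rw [R_eq d t ht]
  simp only [h0, T0, x0, x1, x2, x3, x4, x5, hk]
  nlinarith [sq_nonneg Y]

end Pool.Agent.H.MP_6fff33_lc
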