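import Mathlib
import Pool.Agent.H.MP_6fff33_lc.E

set_option autoImplicit false

namespace Pool.Agent.H.MP_6fff33_lc

open Set Sum Pool.Agent.H.MP_c22137_lc

section
variable {ι : Type} [Fintype ι] {Pn : ℝ → (ι → ℝ) → ℝ}

theorem stab' (hc : Continuous fun p : ℝ × (ι → ℝ) => Pn p.1 p.2)
    (hh : ∀ c w ω, Pn (c * w) (fun j => c * ω j) = c ^ 4 * Pn w ω) (h0 : ∀ w ω, 0 ≤ Pn w ω) {θ : ℝ} (hθ : 0 < θ)
    (H : ∀ (w : ℝ) (ω : ι → ℝ) (k : ι → ℕ) (ϑ : ℝ), 0 < ϑ → Pn w ω < w ^ 4 →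
      ¬ ∀ j, |k j * w - ω j| < ϑ * |w| ∧ ϑ * (k j + 1) ≤ θ) :
    ∃ C, 0 < C ∧ ∀ x : V ι → ℝ, ∃ K, ∀ (T : ℝ) (X : ℝ → V ι → ℝ), X 0 = x → (D T X fun t => full Pn (X t)) →
      ∀ t ∈ Icc (0 : ℝ) T, ‖X t‖ ≤ C * ‖x‖ ∧ t * ‖X t‖ ^ 10 ≤ K := by
  obtain ⟨C, C0, U⟩ := upper h0 hθ H
  have key : ∀ (x : V ι → ℝ) (c : ℝ), 0 ≤ c → (∀ (T : ℝ) (h : ℝ → ℝ) (Z : ℝ → V ι → ℝ), Z 0 = x →
      (D T Z fun t => h t • F (Z t)) → ∀ t ∈ Icc (0 : ℝ) T, c ≤ nq (Z t)) → ∀ (T : ℝ) (X : ℝ → V ι → ℝ), X 0 = x →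
      (D T X fun t => full Pn (X t)) → ∀ t ∈ Icc (0 : ℝ) T, ‖X t‖ ≤ 3 * Real.exp (2 * C) * ‖x‖ ∧
        10 * c ^ 5 * Real.exp (-(10 * C)) * (t * ‖X t‖ ^ 10) ≤ Real.exp (10 * C) * (3 * ‖x‖) ^ 10 := by
    intro x c c0 hl T X x0 d t ht
    obtain ⟨σ, τ, Z, s0, z0, t0, e, dτ, ch, dZ, dσ⟩ := decomp hc hh (ht.1.trans ht.2) d 0 x (by simp [x0])
    obtain ⟨Φ, Φ', dΦ, b1, b2⟩ := U T τ _ Z dZ dτ t0 ch fun t => by positivity
    have b3 := bnd dZ ch (fun t => by positivity) t ht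
    have b4 := hl T _ Z z0 dZ
    have n0 : ∀ t, 0 ≤ nq (Z t) := fun t => by unfold nq; positivity
    have dψ : D T (fun t => σ t - Φ t) fun t => Real.exp (σ t) ^ 8 * R Pn (Z t) - Real.exp (σ t) ^ 10 * nq (Z t) ^ 5 - Φ' t :=
      fun s hs => (dσ s hs).fun_sub (dΦ s hs)
    have p0 := abs_le.1 (b1 0 ⟨le_rfl, ht.1.trans ht.2⟩)
    have p1 := abs_le.1 (b1 t ht)
    rw [e t, norm_smul, Real.norm_eq_abs, abs_of_pos (Real.exp_pos _)]
    rw [z0] at b3
    constructor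
    · have := dψ.anti (fun s hs => by
        have : 0 ≤ Real.exp (σ s) ^ 10 * nq (Z s) ^ 5 := by have := n0 s; positivity
        linarith [b2 s hs]) t ht
      simp only [s0] at this
      have : Real.exp (σ t) ≤ Real.exp (2 * C) := Real.exp_le_exp.2 (by linarith)
      calc _ ≤ Real.exp (2 * C) * (3 * ‖x‖) := by gcongr
        _ = _ := by ring
    · have dg : D T (fun t => 10 * c ^ 5 * Real.exp (-(10 * C)) * t - Real.exp (-10 * (σ t - Φ t))) fun t =>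
          10 * c ^ 5 * Real.exp (-(10 * C)) + 10 * Real.exp (-10 * (σ t - Φ t)) *
            (Real.exp (σ t) ^ 8 * R Pn (Z t) - Real.exp (σ t) ^ 10 * nq (Z t) ^ 5 - Φ' t) := fun s hs =>
        (((hasDerivWithinAt_id s _).const_mul _).fun_sub ((dψ s hs).const_mul (-10)).exp).congr_deriv (by ring)
      have := dg.anti (fun s hs => by
        have a1 : Real.exp (-10 * (σ s - Φ s)) * Real.exp (σ s) ^ 10 = Real.exp (10 * Φ s) := by
          rw [← Real.exp_nat_mul, ← Real.exp_add]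
          congr 1
          push_cast
          ring
        have a2 : Real.exp (-(10 * C)) ≤ Real.exp (10 * Φ s) := Real.exp_le_exp.2 (by linarith [abs_le.1 (b1 s hs)])
        have a3 : c ^ 5 * Real.exp (-(10 * C)) ≤ nq (Z s) ^ 5 * Real.exp (10 * Φ s) := by
          have := b4 s hs
          gcongr
          have := n0 s
          positivity
        have a4 := mul_le_mul_of_nonneg_left (b2 s hs) (Real.exp_pos (-10 * (σ s - Φ s))).le
        linear_combination 10 * a3 + 10 * a4 - 10 * nq (Z s) ^ 5 * a1) t ht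
      have a1 : Real.exp (-10 * (σ t - Φ t)) * Real.exp (σ t) ^ 10 = Real.exp (10 * Φ t) := by
        rw [← Real.exp_nat_mul, ← Real.exp_add]
        congr 1
        push_cast
        ring
      have a2 : Real.exp (10 * Φ t) ≤ Real.exp (10 * C) := Real.exp_le_exp.2 (by linarith)
      have a3 : 10 * c ^ 5 * Real.exp (-(10 * C)) * t ≤ Real.exp (-10 * (σ t - Φ t)) := by
        have := Real.exp_pos (-10 * (σ 0 - Φ 0))
        linarith
      have a4 := mul_le_mul_of_nonneg_right a3 (show 0 ≤ Real.exp (σ t) ^ 10 by positivity)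
      calc _ = 10 * c ^ 5 * Real.exp (-(10 * C)) * t * Real.exp (σ t) ^ 10 * ‖Z t‖ ^ 10 := by ring
        _ ≤ Real.exp (10 * C) * (3 * ‖x‖) ^ 10 := mul_le_mul (a4.trans (a1.le.trans a2)) (by gcongr) (by positivity) (by positivity)
  refine ⟨3 * Real.exp (2 * C), by positivity, fun x => ?_⟩
  by_cases hx : x = 0
  · refine ⟨0, fun T X x0 d t ht => ?_⟩
    have := (key x 0 le_rfl (fun _ _ Z _ _ t _ => by unfold nq; positivity) T X x0 d t ht).1
    refine ⟨this, ?_⟩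
    rw [hx, norm_zero, mul_zero] at this
    simp [le_antisymm this (norm_nonneg _)]
  · obtain ⟨c, c0, hl⟩ := low hx
    refine ⟨Real.exp (10 * C) * (3 * ‖x‖) ^ 10 / (10 * c ^ 5 * Real.exp (-(10 * C))), fun T X x0 d t ht => ?_⟩
    have := key x c c0.le hl T X x0 d t ht
    exact ⟨this.1, (le_div_iff₀' (by positivity)).2 this.2⟩

theorem unst' (hc : Continuous fun p : ℝ × (ι → ℝ) => Pn p.1 p.2)
    (hh : ∀ c w ω, Pn (c * w) (fun j => c * ω j) = c ^ 4 * Pn w ω) (k : ι → ℕ) (hk : Pn 1 (fun j => k j) = 0) :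
    ∃ ε, 0 < ε ∧ ∀ δ, 0 < δ → ∃ x : V ι → ℝ, ‖x‖ < δ ∧ ∃ T, 0 ≤ T ∧ ∀ X : ℝ → V ι → ℝ, X 0 = x →
      (D T X fun t => full Pn (X t)) → ∃ t ∈ Icc (0 : ℝ) T, ε ≤ ‖X t‖ := by
  obtain ⟨z, c, c0, z0, L⟩ := lower k hk
  obtain ⟨B, hB⟩ : ∃ B : ℝ, B = (Fintype.card (V ι) * (3 * ‖z‖) ^ 2) ^ 5 := ⟨_, rfl⟩
  have B0 : 0 ≤ B := by rw [hB]; positivity
  obtain ⟨ε, e0, e1, e2⟩ : ∃ ε : ℝ, 0 < ε ∧ ε ≤ 1 ∧ ε * (B + 1) ≤ c / 2 :=
    ⟨min 1 (c / 2 / (B + 1)), by positivity, min_le_left _ _, (le_div_iff₀ (by positivity)).1 (min_le_right _ _)⟩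
  refine ⟨ε, e0, fun δ d0 => ?_⟩
  obtain ⟨l, l0, l1⟩ : ∃ l : ℝ, 0 < l ∧ l * (‖z‖ + 1) = δ := ⟨δ / (‖z‖ + 1), by positivity, by field_simp⟩
  obtain ⟨T, T0, T1⟩ : ∃ T : ℝ, 0 ≤ T ∧ l * (l ^ 8 * c / 2 * T) = 1 := ⟨2 / (l ^ 9 * c), by positivity, by field_simp⟩
  refine ⟨l • z, by rw [norm_smul, Real.norm_eq_abs, abs_of_pos l0]; linarith, T, T0, fun X x0 d => ?_⟩
  by_contra hn
  push Not at hn
  obtain ⟨σ, τ, Z, s0, Z0, t0, e, dτ, ch, dZ, dσ⟩ := decomp hc hh T0 d (Real.log l) z (by rw [Real.exp_log l0, x0])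
  have a1 : ∀ t ∈ Icc (0 : ℝ) T, Real.exp (σ t) < ε := fun t ht => by
    have := (norm_le_pi_norm (X t) (inl 0)).trans_lt (hn t ht)
    rwa [e t, Pi.smul_apply, (cons dZ t ht).1, Z0, z0, smul_eq_mul, mul_one, Real.norm_eq_abs, abs_of_pos (Real.exp_pos _)] at this
  have a2 : ∀ t ∈ Icc (0 : ℝ) T, Real.exp (σ t) ^ 8 * c / 2 ≤
      Real.exp (σ t) ^ 8 * R Pn (Z t) - Real.exp (σ t) ^ 10 * nq (Z t) ^ 5 := fun t ht => by
    have b1 := L T τ _ Z Z0 dZ dτ t0 ch (fun t => by positivity) t ht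
    have b2 : nq (Z t) ^ 5 ≤ B := by
      have b3 := bnd dZ ch (fun t => by positivity) t ht
      rw [Z0] at b3
      rw [hB]
      refine pow_le_pow_left₀ (by unfold nq; positivity) ?_ 5
      rw [← nsmul_eq_mul, ← Finset.card_univ]
      exact Finset.sum_le_card_nsmul _ _ _ fun v _ => sq_le_sq.2 (((norm_le_pi_norm (Z t) v).trans b3).trans (le_abs_self _))
    have b3 := Real.exp_pos (σ t)
    have b4 : Real.exp (σ t) ^ 2 * nq (Z t) ^ 5 ≤ c / 2 := by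
      have b5 : Real.exp (σ t) ^ 2 ≤ ε := by nlinarith [a1 t ht]
      have b6 : Real.exp (σ t) ^ 2 * nq (Z t) ^ 5 ≤ ε * B := mul_le_mul b5 b2 (by unfold nq; positivity) e0.le
      linarith
    have b7 := mul_le_mul_of_nonneg_left (show c / 2 ≤ R Pn (Z t) - Real.exp (σ t) ^ 2 * nq (Z t) ^ 5 by linarith)
      (show 0 ≤ Real.exp (σ t) ^ 8 by positivity)
    linear_combination b7
  have a3 : ∀ t ∈ Icc (0 : ℝ) T, l ≤ Real.exp (σ t) := fun t ht => by
    have := D.anti (fun s hs => (dσ s hs).fun_neg) (fun s hs => by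
      have : 0 ≤ Real.exp (σ s) ^ 8 * c / 2 := by positivity
      linarith [a2 s hs]) t ht
    rw [← Real.exp_log l0]
    exact Real.exp_le_exp.2 (by linarith)
  have a4 := D.anti (f := fun t => l ^ 8 * c / 2 * t - σ t)
    (fun s hs => ((hasDerivWithinAt_id s _).const_mul _).fun_sub (dσ s hs)) (fun s hs => by
      have : l ^ 8 * c / 2 ≤ Real.exp (σ s) ^ 8 * c / 2 := by have := a3 s hs; gcongr
      linarith [a2 s hs]) T ⟨T0, le_rfl⟩
  have a5 : Real.exp (Real.log l + l ^ 8 * c / 2 * T) ≤ Real.exp (σ T) := Real.exp_le_exp.2 (by linarith)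
  rw [Real.exp_add, Real.exp_log l0] at a5
  have a6 := mul_le_mul_of_nonneg_left (Real.add_one_le_exp (l ^ 8 * c / 2 * T)) l0.le
  linarith [a1 T ⟨T0, le_rfl⟩]

end

variable {N : ℕ}

/-- homogeneous penalty -/
def Pen' (E : List (Eqn N)) (n : ℝ) (w : ℝ) (ω : Fin (N + 1) × Bool → ℝ) : ℝ :=
  2 * (E.map fun e => Ef w ω e ^ 2).sum + 2 * (w * (ω (0, true) - ω (0, false) - n * w)) ^ 2

theorem sum_nonneg' (E : List (Eqn N)) (w : ℝ) (ω : Fin (N + 1) × Bool → ℝ) : 0 ≤ (E.map fun e => Ef w ω e ^ 2).sum :=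
  List.sum_nonneg fun x hx => by
    obtain ⟨e, -, rfl⟩ := List.mem_map.1 hx
    positivity

theorem pen_nonneg' (E : List (Eqn N)) (n w : ℝ) (ω : Fin (N + 1) × Bool → ℝ) : 0 ≤ Pen' E n w ω := by
  have := sum_nonneg' E w ω
  unfold Pen'
  positivity

theorem pen_cont (E : List (Eqn N)) (n : ℝ) : Continuous fun p : ℝ × (Fin (N + 1) × Bool → ℝ) => Pen' E n p.1 p.2 := by
  have l : ∀ u, Continuous fun p : ℝ × (Fin (N + 1) × Bool → ℝ) => Lf p.1 p.2 u := fun u =>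
    continuous_list_sum (f := fun a (p : ℝ × (Fin (N + 1) × Bool → ℝ)) =>
      Sum.elim (fun _ => p.1) (fun i => p.2 (i, true) - p.2 (i, false)) a) u fun a _ => by
        rcases a with a | a <;> simp only [Sum.elim_inl, Sum.elim_inr] <;> fun_prop
  have e : Continuous fun p : ℝ × (Fin (N + 1) × Bool → ℝ) => (E.map fun e => Ef p.1 p.2 e ^ 2).sum :=
    continuous_list_sum (f := fun e (p : ℝ × (Fin (N + 1) × Bool → ℝ)) => Ef p.1 p.2 e ^ 2) E fun ⟨b, u, v⟩ _ => by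
      have := l u
      have := l v
      cases b <;> simp only [Ef, Bool.cond_true, Bool.cond_false] <;> fun_prop
  unfold Pen'
  fun_prop

theorem pen_hom (E : List (Eqn N)) (n c w : ℝ) (ω : Fin (N + 1) × Bool → ℝ) :
    Pen' E n (c * w) (fun j => c * ω j) = c ^ 4 * Pen' E n w ω := by
  have l : ∀ u, Lf (c * w) (fun j => c * ω j) u = c * Lf w ω u := fun u => by
    rw [Lf, Lf, ← List.sum_map_mul_left]
    congr 2
    ext (a | a) <;> simp [mul_sub]
  have e : (E.map fun e => Ef (c * w) (fun j => c * ω j) e ^ 2).sum = c ^ 4 * (E.map fun e => Ef w ω e ^ 2).sum := by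
    rw [← List.sum_map_mul_left]
    congr 2
    ext ⟨b, u, v⟩
    cases b <;> simp only [Ef, l, Bool.cond_true, Bool.cond_false] <;> ring
  simp only [Pen', e]
  ring

theorem pen_zero' {E : List (Eqn N)} {n : ℕ} (h : Solv E n) :
    ∃ k : Fin (N + 1) × Bool → ℕ, Pen' E n 1 (fun j => k j) = 0 := by
  obtain ⟨k, hk⟩ := pen_zero h
  refine ⟨k, ?_⟩
  have := hk 1
  have s := sum_nonneg' E 1 fun j => k j
  simp only [Pen, Pen', mul_one, one_mul] at this ⊢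
  nlinarith [sq_nonneg ((k (0, true) : ℝ) - k (0, false) - n)]

theorem pen_pos' {E : List (Eqn N)} {n : ℕ} (h : ¬ Solv E n) : ∃ θ : ℝ, 0 < θ ∧
    ∀ (w : ℝ) (ω : Fin (N + 1) × Bool → ℝ) (k : Fin (N + 1) × Bool → ℕ) (ϑ : ℝ), 0 < ϑ → Pen' E n w ω < w ^ 4 →
      ¬ ∀ j, |k j * w - ω j| < ϑ * |w| ∧ ϑ * (k j + 1) ≤ θ := by
  obtain ⟨l, l1, hl⟩ : ∃ l : ℝ, 1 ≤ l ∧ ∀ e ∈ E, (e.2.1.length : ℝ) ≤ l ∧ (e.2.2.length : ℝ) ≤ l := by
    clear h
    induction E with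
    | nil => exact ⟨1, le_rfl, by simp⟩
    | cons e E ih =>
      obtain ⟨l, l1, hl⟩ := ih
      have a : (0 : ℝ) ≤ e.2.1.length := by positivity
      have b : (0 : ℝ) ≤ e.2.2.length := by positivity
      refine ⟨l + e.2.1.length + e.2.2.length, by linarith, fun f hf => ?_⟩
      rcases List.mem_cons.1 hf with rfl | hf
      · constructor <;> linarith
      · have := hl f hf
        constructor <;> linarith
  obtain ⟨θ, t0, t1⟩ : ∃ θ : ℝ, 0 < θ ∧ 48 * l ^ 2 * θ = 1 := ⟨1 / (48 * l ^ 2), by positivity, by field_simp⟩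
  refine ⟨θ, t0, fun w ω k y Y0 hP hk => h ?_⟩
  have t2 : l * θ ≤ 1 / 48 := by nlinarith [mul_pos (mul_pos (by linarith : 0 < l) t0) (by linarith : 0 < l)]
  have t3 : θ ≤ 1 / 48 := by nlinarith
  have w0 : 0 < |w| := abs_pos.2 fun c => by
    have := pen_nonneg' E n w ω
    rw [c] at hP this
    simp at hP
    linarith
  have w2 : 0 < w ^ 2 := by rw [← sq_abs]; positivity
  have Yt : y ≤ θ := by
    have := (hk (0, true)).2
    have : 0 ≤ y * k (0, true) := by positivity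
    linarith
  let σ : Fin (N + 1) → ℤ := fun i => k (i, true) - k (i, false)
  have hσ : ∀ i, |ω (i, true) - ω (i, false) - w * σ i| ≤ 2 * (y * |w|) ∧ y * |(σ i : ℝ)| ≤ θ := fun i => by
    obtain ⟨a1, a2⟩ := hk (i, true)
    obtain ⟨b1, b2⟩ := hk (i, false)
    simp only [σ]
    push_cast
    constructor
    · rw [abs_lt] at a1 b1
      rw [abs_le]
      constructor <;> linarith
    · have c1 : (0 : ℝ) ≤ k (i, true) := by positivity
      have c2 : (0 : ℝ) ≤ k (i, false) := by positivity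
      rcases abs_cases ((k (i, true) : ℝ) - k (i, false)) with c | c <;> rw [c.1] <;> nlinarith
  have L := Lf_near (by positivity) Y0.le Yt hσ
  have s0 : ∀ e ∈ E, Ef w ω e ^ 2 ≤ (E.map fun e => Ef w ω e ^ 2).sum := fun e he =>
    List.single_le_sum (fun x hx => by obtain ⟨e, -, rfl⟩ := List.mem_map.1 hx; positivity) _ (List.mem_map.2 ⟨e, he, rfl⟩)
  have s1 : 0 ≤ (E.map fun e => Ef w ω e ^ 2).sum := List.sum_nonneg fun x hx => by
    obtain ⟨e, -, rfl⟩ := List.mem_map.1 hx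
    positivity
  have int : ∀ a b : ℤ, |(a : ℝ) - b| < 1 → a = b := fun a b c => by
    have : |a - b| < 1 := by exact_mod_cast c
    exact sub_eq_zero.1 (Int.abs_lt_one_iff.1 this)
  unfold Pen' at hP
  refine ⟨σ, int _ _ ?_, fun e he => int _ _ ?_⟩
  · have a1 : |ω (0, true) - ω (0, false) - n * w| < 3 / 4 * |w| := by
      refine abs_lt_of_sq_lt_sq (lt_of_mul_lt_mul_left (a := w ^ 2) ?_ w2.le) (by positivity)
      rw [mul_pow, sq_abs]
      nlinarith [mul_pos w2 w2]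
    have a2 := (hσ 0).1
    have a3 : |w| * |(σ 0 : ℝ) - (n : ℤ)| ≤ |ω (0, true) - ω (0, false) - n * w| + |ω (0, true) - ω (0, false) - w * σ 0| := by
      rw [← abs_mul, show w * ((σ 0 : ℝ) - (n : ℤ)) = (ω (0, true) - ω (0, false) - n * w) -
        (ω (0, true) - ω (0, false) - w * σ 0) by push_cast; ring]
      exact abs_sub _ _
    refine lt_of_mul_lt_mul_left (a := |w|) ?_ w0.le
    nlinarith
  · obtain ⟨b, u, v⟩ := e
    obtain ⟨l1, l2⟩ := hl _ he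
    obtain ⟨u1, u2⟩ := L u
    obtain ⟨v1, -⟩ := L v
    have a1 : |Ef w ω (b, u, v)| < 3 / 4 * w ^ 2 := by
      refine abs_lt_of_sq_lt_sq ?_ (by positivity)
      nlinarith [s0 _ he, sq_nonneg (w * (ω (0, true) - ω (0, false) - n * w)), mul_pos w2 w2]
    have yw : 0 < y * |w| := mul_pos Y0 w0
    replace u1 := u1.trans (mul_le_mul_of_nonneg_right l1 (by positivity))
    replace u2 := u2.trans (mul_le_mul_of_nonneg_right l1 t0.le)
    replace v1 := v1.trans (mul_le_mul_of_nonneg_right l2 (by positivity))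
    simp only [Ef] at a1
    simp only
    generalize Lf w ω u = p at *
    generalize Lf w ω v = q at *
    generalize (u.map (Sum.elim 1 σ)).sum = A at *
    generalize (v.map (Sum.elim 1 σ)).sum = B at *
    have c0 : l * (2 * (y * |w|)) ≤ 1 / 24 * |w| := by
      have : l * y ≤ 1 / 48 := by nlinarith
      nlinarith
    have c1 : ∀ d : ℝ, |d| ≤ l * (2 * (y * |w|)) → |w * d| ≤ 1 / 24 * w ^ 2 := fun d hd => by
      rw [abs_mul, ← sq_abs]
      nlinarith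
    have c2 := abs_le.1 (c1 _ u1)
    have c3 := abs_le.1 (c1 _ v1)
    rw [abs_lt] at a1
    refine lt_of_mul_lt_mul_left (a := w ^ 2) ?_ w2.le
    rw [← abs_of_pos w2, ← abs_mul, abs_of_pos w2, abs_lt]
    cases b
    · simp only [cond] at a1 ⊢
      push_cast
      constructor <;> nlinarith
    · simp only [cond] at a1 ⊢
      push_cast
      have c4 : |(p - w * A) * (p - w * A)| ≤ 1 / 24 * w ^ 2 := by
        rw [abs_mul, ← sq_abs]
        have := u1.trans c0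
        nlinarith [abs_nonneg (p - w * A)]
      have c5 : |(p - w * A) * (w * A)| ≤ 1 / 24 * w ^ 2 := by
        rw [abs_mul, abs_mul, ← sq_abs]
        have d1 := mul_le_mul_of_nonneg_right u1 (show 0 ≤ |w| * |(A : ℝ)| by positivity)
        have d2 := mul_le_mul_of_nonneg_left u2 (show 0 ≤ 2 * l * |w| ^ 2 by positivity)
        have d3 : 2 * l * |w| ^ 2 * (l * θ) = 1 / 24 * |w| ^ 2 := by linear_combination |w| ^ 2 / 24 * t1
        linarith
      rw [abs_le] at c4 c5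
      constructor <;> nlinarith

end Pool.Agent.H.MP_6fff33_lc
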