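import Mathlib
import Pool.Agent.H.MP_6fff33_lc.G

set_option autoImplicit false

namespace Pool.Agent.H.MP_6fff33_lc

open Set Sum Pool.Agent.H.MP_c22137_lc

variable {n : ℕ}

theorem pl_pow {a b : ℕ} {f : (Fin n → ℝ) → ℝ} (h : Pl a b f) (k : ℕ) : Pl (a * (k + 1)) (b * (k + 1)) fun x => f x ^ (k + 1) := by
  induction k with
  | zero => simpa using h
  | succ k ih => exact ((ih.mul h).mono (by ring_nf; rfl) (by ring_nf; rfl)).of_eq fun x => by ring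

theorem ev_smooth (L : List (Fin n × (Fin n → ℕ) × ℤ)) : ContDiff ℝ 1 (ev L) := by
  refine contDiff_pi.2 fun i => ?_
  induction L with
  | nil => simpa [ev] using contDiff_const
  | cons p L ih =>
    simp only [ev, List.map_cons, List.sum_cons] at ih ⊢
    refine ContDiff.add ?_ ih
    split_ifs
    · exact contDiff_const.mul (contDiff_prod fun j _ => (contDiff_apply ℝ ℝ j).pow _)
    · exact contDiff_const

/-- strong form of global asymptotic stability -/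
def St' (f : (Fin n → ℝ) → Fin n → ℝ) : Prop := ∃ C, 0 < C ∧ ∀ x,
  (∃ γ : ℝ → Fin n → ℝ, γ 0 = x ∧ ∀ t, 0 ≤ t → HasDerivAt γ (f (γ t)) t) ∧
  ∃ K, ∀ (T : ℝ) (γ : ℝ → Fin n → ℝ), γ 0 = x → (D T γ fun t => f (γ t)) →
    ∀ t ∈ Icc (0 : ℝ) T, ‖γ t‖ ≤ C * ‖x‖ ∧ t * ‖γ t‖ ^ 10 ≤ K

/-- strong form of instability -/
def Un' (f : (Fin n → ℝ) → Fin n → ℝ) : Prop := ∃ ε, 0 < ε ∧ ∀ δ, 0 < δ → ∃ x, ‖x‖ < δ ∧
  ∃ T, 0 ≤ T ∧ ∀ γ : ℝ → Fin n → ℝ, γ 0 = x → (D T γ fun t => f (γ t)) → ∃ t ∈ Icc (0 : ℝ) T, ε ≤ ‖γ t‖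

theorem tr_D' {W : Type} [Fintype W] (e : W ≃ Fin n) {f : (W → ℝ) → W → ℝ} {T : ℝ} {γ : ℝ → Fin n → ℝ}
    (h : D T γ fun t => f (γ t ∘ e) ∘ e.symm) : D T (fun t => γ t ∘ e) fun t => f (γ t ∘ e) :=
  fun t ht => hasDerivWithinAt_pi.2 fun v => by simpa using hasDerivWithinAt_pi.1 (h t ht) (e v)

theorem main' : ∃ (n : ℕ) (L0 L1 L2 : List (Fin n × (Fin n → ℕ) × ℤ)) (S : ℕ → Prop), 0 < n ∧
    (∀ p, p ∈ L0 ∨ p ∈ L1 ∨ p ∈ L2 → 1 ≤ ∑ j, p.2.1 j ∧ ∑ j, p.2.1 j ≤ 11) ∧ ¬ ComputablePred S ∧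
    ∀ m : ℕ, (¬ S m → St' fun x i => ev L0 x i + m * ev L1 x i + (m * m : ℕ) * ev L2 x i) ∧
      (S m → Un' fun x i => ev L0 x i + m * ev L1 x i + (m * m : ℕ) * ev L2 x i) := by
  obtain ⟨N, E, hE⟩ := Pool.Agent.Lib.H10.exists_sq
  let e := Fintype.equivFin (V (Fin (N + 1) × Bool))
  have v := fun i => Pl.var (e i)
  have lf : ∀ u, Pl 1 1 fun x => Lf (x (e (inl 1))) (fun j => x (e (inr (j, 0)))) u := fun u =>
    (Pl.lsum u (F := fun a x => Sum.elim (fun _ => x (e (inl 1))) (fun i => x (e (inr ((i, true), 0))) - x (e (inr ((i, false), 0)))) a)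
      fun a => by
        rcases a with a | a
        · exact v _
        · exact (v _).sub (v _))
  have ef : ∀ q, Pl 2 2 fun x => Ef (x (e (inl 1))) (fun j => x (e (inr (j, 0)))) q := fun ⟨b, u, w⟩ => by
    cases b
    · exact ((v _).mul (lf _)).sub ((v _).mul (lf _))
    · exact ((lf _).mul (lf _)).sub ((v _).mul (lf _))
  have pS : Pl 2 2 fun x => SS (x ∘ e) := (v _).sq.sub ((v _).sq.add (v _).sq)
  have pT : Pl 2 2 fun x => TT (x ∘ e) := (v _).sq.add ((v _).sq.add (v _).sq)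
  have pN : Pl 2 2 fun x => NN (x ∘ e) := ((v _).sq.add (v _).sq).add (Pl.fsum _ fun j => (v _).sq.add (v _).sq)
  have pQ : Pl 2 2 fun x => QQ (x ∘ e) := ((v _).add (v _)).sq.add (v _).sq
  have pF : ∀ j, Pl 3 3 fun x => FF (x ∘ e) j := fun j => (v _).mul ((((v _).add (v _)).mul (v _)).add ((v _).mul (v _)))
  have p3 := pl_pow (v (inl 1)) 2
  have p4 := pl_pow (v (inl 1)) 3
  have pP : Pl 4 4 fun x => Pen' E 0 (x (e (inl 1))) fun j => x (e (inr (j, 0))) :=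
    (Pl.lsum E fun q => (ef q).sq).two.add ((((v (inl 1)).mul ((v (inr ((0, true), 0))).sub
      (v (inr ((0, false), 0))))).sq.two).of_eq fun x => by simp)
  have pR : Pl 8 8 fun x => R (Pen' E 0) (x ∘ e) :=
    (p4.mul (((v _).sq.mul ((v _).sq.sub ((((v (inl 3)).sq.add (v (inl 4)).sq).smul 4).of_eq fun x => by simp))).sub
      (pT.two.mul (Pl.fsum _ fun j => ((v _).sub (v _)).sq)))).sub (((v _).sq.mul pT).mul pP)
  have pn : Pl 10 10 fun x => nq (x ∘ e) ^ 5 := pl_pow (Pl.fsum _ fun j => (v j).sq) 4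
  obtain ⟨L0, a0, b0⟩ := exists_list (a := 1) (b := 11) (F := fun x => full (Pen' E 0) (x ∘ e) ∘ e.symm) fun i => by
    obtain ⟨i, rfl⟩ := e.surjective i
    simp only [Function.comp_apply, Equiv.symm_apply_apply]
    refine Pl.add (Pl.mono (a' := 9) (b' := 9) ?_ (by norm_num) (by norm_num))
      ((((pR.mono le_rfl (by norm_num)).sub (pn.mono (by norm_num) le_rfl)).mul (v i)).mono (a' := 8 + 1) (b' := 10 + 1)
        (by norm_num) le_rfl)
    rcases i with i | ⟨j, i⟩ <;> fin_cases i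
    · exact Pl.zero
    · exact Pl.zero
    · exact Pl.zero
    · exact (((p4.mul pN).mul pQ).mul (v _)).neg
    · exact ((p4.mul pN).mul pQ).mul (v _)
    · exact Pl.zero
    · exact ((((p3.mul (v _)).mul pN).mul pS).mul (v _)).neg
    · exact (((p3.mul (v _)).mul pN).mul pS).mul (v _)
    · exact (p4.mul ((v _).sq.add (v _).sq)).mul ((pF j).sub (pT.mul (v _)))
  obtain ⟨L1, a1, b1⟩ := exists_list (a := 1) (b := 11) (F := fun x i => (4 : ℤ) * (x (e (inl 2)) ^ 2 * TT (x ∘ e) *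
      x (e (inl 1)) ^ (2 + 1) * (x (e (inr ((0, true), 0))) - x (e (inr ((0, false), 0)))) * x i)) fun i =>
    ((((((v _).sq.mul pT).mul p3).mul ((v _).sub (v _))).mul (Pl.var i)).smul 4).mono (by norm_num) (by norm_num)
  obtain ⟨L2, a2, b2⟩ := exists_list (a := 1) (b := 11) (F := fun x i => (-2 : ℤ) * (x (e (inl 2)) ^ 2 * TT (x ∘ e) *
      x (e (inl 1)) ^ (3 + 1) * x i)) fun i =>
    (((((v _).sq.mul pT).mul p4).mul (Pl.var i)).smul (-2)).mono (by norm_num) (by norm_num)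
  refine ⟨_, L0, L1, L2, Solv E, Fintype.card_pos, fun p hp => hp.elim (a0 p) fun hp => hp.elim (a1 p) (a2 p), hE, fun m => ?_⟩
  have sm : ContDiff ℝ 1 fun x i => ev L0 x i + m * ev L1 x i + (m * m : ℕ) * ev L2 x i := contDiff_pi.2 fun i =>
    ((contDiff_pi.1 (ev_smooth L0) i).add (contDiff_const.mul (contDiff_pi.1 (ev_smooth L1) i))).add
      (contDiff_const.mul (contDiff_pi.1 (ev_smooth L2) i))
  have key : (fun x i => ev L0 x i + m * ev L1 x i + (m * m : ℕ) * ev L2 x i) = fun x => full (Pen' E m) (x ∘ e) ∘ e.symm := by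
    ext x i
    obtain ⟨i, rfl⟩ := e.surjective i
    simp only [b0, b1, b2, Function.comp_apply, Equiv.symm_apply_apply, full, R, Pen']
    push_cast
    ring
  have nm : ∀ x : Fin _ → ℝ, ‖x ∘ e‖ = ‖x‖ := fun x => e.surjective.pi_norm_comp x
  rw [key] at sm ⊢
  refine ⟨fun h => ?_, fun h => ?_⟩
  · obtain ⟨θ, t0, H⟩ := pen_pos' h
    obtain ⟨C, C0, k⟩ := stab' (pen_cont E m) (pen_hom E m) (pen_nonneg' E m) t0 H
    refine ⟨C, C0, fun x => ?_⟩
    obtain ⟨K, hK⟩ := k (x ∘ e)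
    have := fun T (γ : ℝ → Fin _ → ℝ) (h0 : γ 0 = x) h t ht => hK T (fun t => γ t ∘ e) (by simp [h0]) (tr_D' e h) t ht
    simp only [nm] at this
    exact ⟨glob sm x fun T γ h0 h t ht => (this T γ h0 h t ht).1, K, this⟩
  · obtain ⟨k, hk⟩ := pen_zero' h
    obtain ⟨ε, e0, H⟩ := unst' (pen_cont E m) (pen_hom E m) k hk
    refine ⟨ε, e0, fun δ d0 => ?_⟩
    obtain ⟨x, hx, T, T0, H⟩ := H δ d0
    obtain ⟨x, rfl⟩ : ∃ y, x = y ∘ e := ⟨x ∘ e.symm, by ext; simp⟩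
    refine ⟨x, by rwa [← nm], T, T0, fun γ h0 h => ?_⟩
    simpa only [nm] using H (fun t => γ t ∘ e) (by simp [h0]) (tr_D' e h)

end Pool.Agent.H.MP_6fff33_lc
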